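import Pool.Agent.NH65.BG.Stm

/-! # BG-ABS: analytic nonmeagre subgroups are open -/

set_option autoImplicit false

open Set Filter Topology MeasureTheory
open scoped Pointwise

namespace Pool.Agent.NH65.BG

theorem t_ABS (h1 : S_BP) (h2 : S_PET) : S_ABS := by
  intro Γ _ _ _ _ L M hL hM hmeagre
  haveI : PolishSpace L := hL.polishSpace
  haveI : BaireSpace L := by
    letI := TopologicalSpace.upgradeIsCompletelyMetrizable L
    infer_instance
  have ha : AnalyticSet ((fun x : L => x.1) ⁻¹' (M : Set Γ)) := hM.preimage continuous_subtype_val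
  have hb : BaireMeasurableSet {x : L | x.1 ∈ M} := h1 L _ ha
  have hc := h2 L {x : L | x.1 ∈ M} hb hmeagre
  have hd : {x : L | x.1 ∈ M} * {x : L | x.1 ∈ M}⁻¹ ⊆ {x : L | x.1 ∈ M} := by
    rintro x ⟨a, ha, b, hb, rfl⟩
    have hb' : ((b⁻¹ : L) : Γ) ∈ M := hb
    have hb2 : (b : Γ) ∈ M := by
      have := M.inv_mem hb'
      simpa using this
    show ((a * b : L) : Γ) ∈ M
    exact M.mul_mem ha hb2
  have he := Filter.mem_of_superset hc hd
  rw [nhds_subtype_eq_comap, Filter.mem_comap] at he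
  obtain ⟨V, hV, hVs⟩ := he
  exact ⟨V, hV, fun f hf hfL => hVs (show ((⟨f, hfL⟩ : L) : Γ) ∈ V from hf)⟩

end Pool.Agent.NH65.BG
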