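import Pool.Agent.NH65.BG.Stm

/-!
# BG-ANA: normal closures of analytic sets are analytic (helper2)
-/

set_option autoImplicit false

open Set Filter Topology MeasureTheory

namespace Pool.Agent.NH65.BG

namespace ANA

theorem inter2 {X : Type} [TopologicalSpace X] [T2Space X] {s t : Set X} (hs : AnalyticSet s)
    (ht : AnalyticSet t) : AnalyticSet (s ∩ t) := by
  rw [Set.inter_eq_iInter]
  refine AnalyticSet.iInter fun b => ?_
  cases b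
  · exact ht
  · exact hs

theorem union2 {X : Type} [TopologicalSpace X] {s t : Set X} (hs : AnalyticSet s)
    (ht : AnalyticSet t) : AnalyticSet (s ∪ t) := by
  rw [Set.union_eq_iUnion]
  refine AnalyticSet.iUnion fun b => ?_
  cases b
  · exact ht
  · exact hs

variable {Γ : Type} [Group Γ]

/-- the conjugates of the elements of `A ∩ G` and of their inverses -/
def P (G : Subgroup Γ) (A : Set Γ) : Set Γ :=
  {y | ∃ g ∈ G, ∃ a ∈ A, a ∈ G ∧ (y = g * a * g⁻¹ ∨ y = g * a⁻¹ * g⁻¹)}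

/-- the products of `m` elements of `P` -/
def W (G : Subgroup Γ) (A : Set Γ) : ℕ → Set Γ
  | 0 => {1}
  | m + 1 => (fun p : Γ × Γ => p.1 * p.2) '' {p | p.1 ∈ W G A m ∧ p.2 ∈ P G A}

theorem analytic_P [TopologicalSpace Γ] [IsTopologicalGroup Γ] [PolishSpace Γ] {G : Subgroup Γ}
    {A : Set Γ} (hG : AnalyticSet (G : Set Γ)) (hA : AnalyticSet A) : AnalyticSet (P G A) := by
  have h1 : AnalyticSet {p : Γ × Γ | p.1 ∈ G ∧ (p.2 ∈ A ∧ p.2 ∈ G)} :=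
    inter2 (hG.preimage continuous_fst) (inter2 (hA.preimage continuous_snd)
      (hG.preimage continuous_snd))
  have h2 : AnalyticSet ((fun p : Γ × Γ => p.1 * p.2 * p.1⁻¹) ''
      {p : Γ × Γ | p.1 ∈ G ∧ (p.2 ∈ A ∧ p.2 ∈ G)}) := h1.image_of_continuous (by fun_prop)
  have h3 : AnalyticSet ((fun p : Γ × Γ => p.1 * p.2⁻¹ * p.1⁻¹) ''
      {p : Γ × Γ | p.1 ∈ G ∧ (p.2 ∈ A ∧ p.2 ∈ G)}) := h1.image_of_continuous (by fun_prop)
  have h4 := union2 h2 h3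
  have e : P G A = (fun p : Γ × Γ => p.1 * p.2 * p.1⁻¹) ''
      {p : Γ × Γ | p.1 ∈ G ∧ (p.2 ∈ A ∧ p.2 ∈ G)} ∪ (fun p : Γ × Γ => p.1 * p.2⁻¹ * p.1⁻¹) ''
      {p : Γ × Γ | p.1 ∈ G ∧ (p.2 ∈ A ∧ p.2 ∈ G)} := by
    ext y
    constructor
    · rintro ⟨g, hg, a, ha, haG, rfl | rfl⟩
      · exact Or.inl ⟨(g, a), ⟨hg, ha, haG⟩, rfl⟩
      · exact Or.inr ⟨(g, a), ⟨hg, ha, haG⟩, rfl⟩
    · rintro (⟨⟨g, a⟩, ⟨hg, ha, haG⟩, rfl⟩ | ⟨⟨g, a⟩, ⟨hg, ha, haG⟩, rfl⟩)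
      · exact ⟨g, hg, a, ha, haG, Or.inl rfl⟩
      · exact ⟨g, hg, a, ha, haG, Or.inr rfl⟩
  rw [e]
  exact h4

theorem analytic_W [TopologicalSpace Γ] [IsTopologicalGroup Γ] [PolishSpace Γ] {G : Subgroup Γ}
    {A : Set Γ} (hG : AnalyticSet (G : Set Γ)) (hA : AnalyticSet A) (m : ℕ) :
    AnalyticSet (W G A m) := by
  induction m with
  | zero => exact (isClosed_singleton (x := (1 : Γ))).analyticSet
  | succ m ih =>
    have h1 : AnalyticSet {p : Γ × Γ | p.1 ∈ W G A m ∧ p.2 ∈ P G A} :=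
      inter2 (ih.preimage continuous_fst) ((analytic_P hG hA).preimage continuous_snd)
    exact h1.image_of_continuous continuous_mul

theorem mem_step {G : Subgroup Γ} {A : Set Γ} {m : ℕ} {x y : Γ} (hx : x ∈ W G A m)
    (hy : y ∈ P G A) : x * y ∈ W G A (m + 1) := ⟨(x, y), ⟨hx, hy⟩, rfl⟩

theorem of_W {G : Subgroup Γ} {A : Set Γ} (m : ℕ) : ∀ f ∈ W G A m,
    ∃ g ∈ Subgroup.normalClosure {g : G | g.1 ∈ A}, g.1 = f := by
  induction m with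
  | zero =>
    intro f hf
    have hf' : f = 1 := hf
    exact ⟨1, one_mem _, by rw [hf']; rfl⟩
  | succ m ih =>
    rintro _ ⟨⟨x, y⟩, ⟨hx, hy⟩, rfl⟩
    obtain ⟨gx, hgx, rfl⟩ := ih x hx
    obtain ⟨g, hg, a, ha, haG, h⟩ := hy
    have h1 : (⟨a, haG⟩ : G) ∈ Subgroup.normalClosure {g : G | g.1 ∈ A} :=
      Subgroup.subset_normalClosure ha
    have hn : (Subgroup.normalClosure {g : G | g.1 ∈ A}).Normal := Subgroup.normalClosure_normal
    rcases h with h | h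
    · refine ⟨gx * ((⟨g, hg⟩ : G) * ⟨a, haG⟩ * (⟨g, hg⟩ : G)⁻¹), mul_mem hgx (hn.conj_mem _ h1 _), ?_⟩
      change gx.1 * (g * a * g⁻¹) = gx.1 * y
      have hy' : y = g * a * g⁻¹ := h
      rw [hy']
    · refine ⟨gx * ((⟨g, hg⟩ : G) * (⟨a, haG⟩ : G)⁻¹ * (⟨g, hg⟩ : G)⁻¹),
        mul_mem hgx (hn.conj_mem _ (inv_mem h1) _), ?_⟩
      change gx.1 * (g * a⁻¹ * g⁻¹) = gx.1 * y
      have hy' : y = g * a⁻¹ * g⁻¹ := h
      rw [hy']

theorem mem_P {G : Subgroup Γ} {A : Set Γ} {y : G}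
    (hy : y ∈ Group.conjugatesOfSet {g : G | g.1 ∈ A}) : y.1 ∈ P G A ∧ (y⁻¹).1 ∈ P G A := by
  rw [Group.mem_conjugatesOfSet_iff] at hy
  obtain ⟨a, ha, hc⟩ := hy
  rw [isConj_iff] at hc
  obtain ⟨c, rfl⟩ := hc
  refine ⟨⟨c.1, c.2, a.1, ha, a.2, Or.inl rfl⟩, ⟨c.1, c.2, a.1, ha, a.2, Or.inr ?_⟩⟩
  rw [show (c * a * c⁻¹)⁻¹ = c * a⁻¹ * c⁻¹ by group]
  rfl

theorem to_W {G : Subgroup Γ} {A : Set Γ} (g : G)
    (hg : g ∈ Subgroup.normalClosure {g : G | g.1 ∈ A}) : ∃ m, g.1 ∈ W G A m := by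
  have hg' : g ∈ Subgroup.closure (Group.conjugatesOfSet {g : G | g.1 ∈ A}) := hg
  induction hg' using Subgroup.closure_induction_right with
  | one => exact ⟨0, rfl⟩
  | mul_right x hx y hy ih =>
    obtain ⟨m, hm⟩ := ih hx
    exact ⟨m + 1, mem_step hm (mem_P hy).1⟩
  | mul_inv_cancel x hx y hy ih =>
    obtain ⟨m, hm⟩ := ih hx
    exact ⟨m + 1, mem_step hm (mem_P hy).2⟩

end ANA

open ANA in
theorem t_ANA : S_ANA := by
  intro Γ _ _ _ _ G A hG hA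
  have e : {f : Γ | ∃ g ∈ Subgroup.normalClosure {g : G | g.1 ∈ A}, g.1 = f} = ⋃ m, W G A m := by
    ext f
    rw [Set.mem_iUnion]
    constructor
    · rintro ⟨g, hg, rfl⟩
      exact to_W g hg
    · rintro ⟨m, hm⟩
      exact of_W m f hm
  rw [e]
  exact AnalyticSet.iUnion fun m => analytic_W hG hA m

end Pool.Agent.NH65.BG
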