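import Pool.Agent.NH65.BG.Stm3

/-!
# BG-ANB: subgroups generated by analytic sets are analytic
-/

set_option autoImplicit false

open Set Filter Topology MeasureTheory

namespace Pool.Agent.NH65.BG

namespace ANB

theorem inter2 {X : Type} [TopologicalSpace X] [T2Space X] {s t : Set X} (hs : AnalyticSet s)
    (ht : AnalyticSet t) : AnalyticSet (s ∩ t) := by
  rw [Set.inter_eq_iInter]
  refine AnalyticSet.iInter fun b => ?_
  cases b
  · exact ht
  · exact hs

theorem union2 {X : Type} [TopologicalSpace X] {s t : Set X} (hs : AnalyticSet s)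
    (ht : AnalyticSet t) : AnalyticSet (s ∪ t) := by
  rw [Set.union_eq_iUnion]
  refine AnalyticSet.iUnion fun b => ?_
  cases b
  · exact ht
  · exact hs

variable {Γ : Type} [Group Γ]

/-- the elements of `A ∩ G` and their inverses -/
def P (G : Subgroup Γ) (A : Set Γ) : Set Γ := {y | y ∈ G ∧ (y ∈ A ∨ y⁻¹ ∈ A)}

/-- the products of `m` elements of `P` -/
def W (G : Subgroup Γ) (A : Set Γ) : ℕ → Set Γ
  | 0 => {1}
  | m + 1 => (fun p : Γ × Γ => p.1 * p.2) '' {p | p.1 ∈ W G A m ∧ p.2 ∈ P G A}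

theorem analytic_P [TopologicalSpace Γ] [IsTopologicalGroup Γ] [PolishSpace Γ] {G : Subgroup Γ}
    {A : Set Γ} (hG : AnalyticSet (G : Set Γ)) (hA : AnalyticSet A) : AnalyticSet (P G A) :=
  inter2 hG (union2 hA (hA.preimage continuous_inv))

theorem analytic_W [TopologicalSpace Γ] [IsTopologicalGroup Γ] [PolishSpace Γ] {G : Subgroup Γ}
    {A : Set Γ} (hG : AnalyticSet (G : Set Γ)) (hA : AnalyticSet A) (m : ℕ) :
    AnalyticSet (W G A m) := by
  induction m with
  | zero => exact (isClosed_singleton (x := (1 : Γ))).analyticSet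
  | succ m ih =>
    have h1 : AnalyticSet {p : Γ × Γ | p.1 ∈ W G A m ∧ p.2 ∈ P G A} :=
      inter2 (ih.preimage continuous_fst) ((analytic_P hG hA).preimage continuous_snd)
    exact h1.image_of_continuous continuous_mul

theorem mem_step {G : Subgroup Γ} {A : Set Γ} {m : ℕ} {x y : Γ} (hx : x ∈ W G A m)
    (hy : y ∈ P G A) : x * y ∈ W G A (m + 1) := ⟨(x, y), ⟨hx, hy⟩, rfl⟩

theorem of_W {G : Subgroup Γ} {A : Set Γ} (m : ℕ) : ∀ f ∈ W G A m,
    ∃ g ∈ Subgroup.closure {g : G | g.1 ∈ A}, g.1 = f := by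
  induction m with
  | zero =>
    intro f hf
    have hf' : f = 1 := hf
    exact ⟨1, one_mem _, by rw [hf']; rfl⟩
  | succ m ih =>
    rintro _ ⟨⟨x, y⟩, ⟨hx, hy⟩, rfl⟩
    obtain ⟨gx, hgx, rfl⟩ := ih x hx
    obtain ⟨hyG, h⟩ := hy
    have h1 : (⟨y, hyG⟩ : G) ∈ Subgroup.closure {g : G | g.1 ∈ A} := by
      rcases h with h | h
      · exact Subgroup.subset_closure h
      · have h2 : (⟨y, hyG⟩ : G)⁻¹ ∈ Subgroup.closure {g : G | g.1 ∈ A} :=
          Subgroup.subset_closure h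
        exact (Subgroup.inv_mem_iff _).1 h2
    exact ⟨gx * ⟨y, hyG⟩, mul_mem hgx h1, rfl⟩

theorem to_W {G : Subgroup Γ} {A : Set Γ} (g : G)
    (hg : g ∈ Subgroup.closure {g : G | g.1 ∈ A}) : ∃ m, g.1 ∈ W G A m := by
  induction hg using Subgroup.closure_induction_right with
  | one => exact ⟨0, rfl⟩
  | mul_right x hx y hy ih =>
    obtain ⟨m, hm⟩ := ih
    exact ⟨m + 1, mem_step hm ⟨y.2, Or.inl hy⟩⟩
  | mul_inv_cancel x hx y hy ih =>
    obtain ⟨m, hm⟩ := ih
    refine ⟨m + 1, mem_step hm ⟨(y⁻¹).2, Or.inr ?_⟩⟩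
    have h1 : (((y⁻¹ : G) : Γ))⁻¹ = (y : Γ) := by
      rw [Subgroup.coe_inv, inv_inv]
    rw [h1]
    exact hy

end ANB

open ANB in
theorem t_ANB : S_ANB := by
  intro Γ _ _ _ _ G A hG hA
  have e : {f : Γ | ∃ g ∈ Subgroup.closure {g : G | g.1 ∈ A}, g.1 = f} = ⋃ m, W G A m := by
    ext f
    rw [Set.mem_iUnion]
    constructor
    · rintro ⟨g, hg, rfl⟩
      exact to_W g hg
    · rintro ⟨m, hm⟩
      exact of_W m f hm
  rw [e]
  exact AnalyticSet.iUnion fun m => analytic_W hG hA m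

end Pool.Agent.NH65.BG
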