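import Pool.Agent.NH65.BG.Stm

/-!
# BG-BP: analytic sets have the property of Baire
-/

set_option autoImplicit false

open Set Filter Topology MeasureTheory

namespace Pool.Agent.NH65.BG

namespace BP

variable {X : Type} [TopologicalSpace X]

/-- the points where `E` is locally not meagre -/
def D (E : Set X) : Set X := {x | ∀ U : Set X, IsOpen U → x ∈ U → ¬ IsMeagre (E ∩ U)}

lemma D_closed (E : Set X) : IsClosed (D E) := by
  rw [← isOpen_compl_iff, isOpen_iff_forall_mem_open]
  intro x hx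
  have h1 : ∃ U : Set X, IsOpen U ∧ x ∈ U ∧ IsMeagre (E ∩ U) := by
    by_contra h
    push Not at h
    exact hx (fun U hU hxU => h U hU hxU)
  obtain ⟨U, hU, hxU, hm⟩ := h1
  exact ⟨U, fun y hy hyD => hyD U hU hy hm, hU, hxU⟩

lemma D_sub (E : Set X) : D E ⊆ closure E := by
  intro x hx
  rw [mem_closure_iff]
  intro U hU hxU
  have h := nonempty_of_not_isMeagre (hx U hU hxU)
  rwa [inter_comm]

lemma diff_meagre [SecondCountableTopology X] (E : Set X) : IsMeagre (E \ D E) := by
  have h1 : IsMeagre (⋃ B ∈ {B : Set X | B ∈ TopologicalSpace.countableBasis X ∧ IsMeagre (E ∩ B)},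
      E ∩ B) := by
    apply isMeagre_biUnion
    · exact (TopologicalSpace.countable_countableBasis X).mono (fun B hB => hB.1)
    · exact fun B hB => hB.2
  refine h1.mono ?_
  rintro x ⟨hxE, hxD⟩
  have h2 : ∃ U : Set X, IsOpen U ∧ x ∈ U ∧ IsMeagre (E ∩ U) := by
    by_contra h
    push Not at h
    exact hxD (fun U hU hxU => h U hU hxU)
  obtain ⟨U, hU, hxU, hm⟩ := h2
  obtain ⟨B, hB, hxB, hBU⟩ := (TopologicalSpace.isBasis_countableBasis X).exists_subset_of_mem_open
    hxU hU
  exact mem_biUnion (x := B) ⟨hB, hm.mono (inter_subset_inter_right E hBU)⟩ ⟨hxE, hxB⟩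

lemma D_measurable (E : Set X) : BaireMeasurableSet (D E) :=
  (D_closed E).isOpen_compl.baireMeasurableSet.of_compl

lemma key [SecondCountableTopology X] [BaireSpace X] (A : ℕ → Set X) :
    IsMeagre (D (⋃ i, A i) \ ⋃ i, D (A i)) := by
  set F : Set X := D (⋃ i, A i) \ ⋃ i, D (A i) with hF
  have hFm : BaireMeasurableSet F :=
    (D_measurable _).diff (BaireMeasurableSet.iUnion fun i => D_measurable (A i))
  obtain ⟨U, hU, hFU⟩ := hFm.residualEq_isOpen
  have hFU' : ∀ᶠ x in residual X, x ∈ F ↔ x ∈ U := eventuallyEq_set.1 hFU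
  have hUF : IsMeagre (U \ F) := by
    show (U \ F)ᶜ ∈ residual X
    filter_upwards [hFU'] with x hx
    rintro ⟨h1, h2⟩
    exact h2 (hx.2 h1)
  rcases U.eq_empty_or_nonempty with hE | ⟨x, hx⟩
  · show Fᶜ ∈ residual X
    filter_upwards [hFU'] with y hy hyF
    have h3 := hy.1 hyF
    rw [hE] at h3
    exact h3
  · exfalso
    have hsub : U ⊆ D (⋃ i, A i) := by
      by_contra h
      rw [not_subset] at h
      obtain ⟨y, hyU, hyD⟩ := h
      have ho : IsOpen (U ∩ (D (⋃ i, A i))ᶜ) := hU.inter (D_closed _).isOpen_compl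
      have hne : (U ∩ (D (⋃ i, A i))ᶜ).Nonempty := ⟨y, hyU, hyD⟩
      have hsb : U ∩ (D (⋃ i, A i))ᶜ ⊆ U \ F := fun z hz => ⟨hz.1, fun hzF => hz.2 hzF.1⟩
      exact not_isMeagre_of_isOpen ho hne (hUF.mono hsb)
    apply hsub hx U hU hx
    have hm : IsMeagre ((⋃ i, (A i \ D (A i))) ∪ (U \ F)) :=
      (isMeagre_iUnion fun i => diff_meagre (A i)).union hUF
    refine hm.mono ?_
    rintro z ⟨hz, hzU⟩
    obtain ⟨i, hi⟩ := mem_iUnion.1 hz
    by_cases hzD : z ∈ D (A i)
    · exact Or.inr ⟨hzU, fun hzF => hzF.2 (mem_iUnion.2 ⟨i, hzD⟩)⟩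
    · exact Or.inl (mem_iUnion.2 ⟨i, hi, hzD⟩)

/-- the image of a cylinder -/
def Im (f : (ℕ → ℕ) → X) (t : List ℕ) : Set X := f '' {y | PiNat.res y t.length = t}

omit [TopologicalSpace X] in
lemma Im_union (f : (ℕ → ℕ) → X) (t : List ℕ) : Im f t = ⋃ i : ℕ, Im f (i :: t) := by
  ext x
  rw [mem_iUnion]
  constructor
  · rintro ⟨y, hy, rfl⟩
    refine ⟨y t.length, y, ?_, rfl⟩
    show PiNat.res y (t.length + 1) = _
    rw [PiNat.res_succ]
    rw [show PiNat.res y t.length = t from hy]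
  · rintro ⟨i, y, hy, rfl⟩
    refine ⟨y, ?_, rfl⟩
    have h1 : PiNat.res y (t.length + 1) = i :: t := hy
    rw [PiNat.res_succ] at h1
    exact (List.cons.inj h1).2

lemma branch [T2Space X] {f : (ℕ → ℕ) → X} (hf : Continuous f) {x : X}
    (h0 : x ∈ D (Im f [])) (hs : ∀ t : List ℕ, x ∈ D (Im f t) → ∃ i : ℕ, x ∈ D (Im f (i :: t))) :
    x ∈ range f := by
  choose! g hg using hs
  let T : ℕ → List ℕ := fun k => Nat.rec [] (fun _ t => g t :: t) k
  have hT0 : T 0 = [] := rfl
  have hTs : ∀ k, T (k + 1) = g (T k) :: T k := fun k => rfl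
  have hTD : ∀ k, x ∈ D (Im f (T k)) := by
    intro k
    induction k with
    | zero => exact h0
    | succ k ih => rw [hTs]; exact hg _ ih
  let y : ℕ → ℕ := fun k => g (T k)
  have hTy : ∀ k, PiNat.res y k = T k := by
    intro k
    induction k with
    | zero => rfl
    | succ k ih => rw [PiNat.res_succ, ih, hTs]
  refine ⟨y, ?_⟩
  by_contra hne
  obtain ⟨V, U, hV, hU, hyV, hxU, hd⟩ := t2_separation hne
  have h1 : IsOpen (f ⁻¹' V) := hV.preimage hf
  obtain ⟨c, ⟨z, n, rfl⟩, hyc, hcV⟩ :=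
    (PiNat.isTopologicalBasis_cylinders (fun _ : ℕ => ℕ)).exists_subset_of_mem_open
      (show y ∈ f ⁻¹' V from hyV) h1
  have h2 : PiNat.cylinder y n = PiNat.cylinder z n := PiNat.mem_cylinder_iff_eq.1 hyc
  have h3 : x ∈ closure (Im f (T n)) := D_sub _ (hTD n)
  obtain ⟨w, hwU, hw⟩ := mem_closure_iff.1 h3 U hU hxU
  obtain ⟨v, hv, rfl⟩ := hw
  have h4 : v ∈ PiNat.cylinder y n := by
    rw [PiNat.cylinder_eq_res]
    have h5 : PiNat.res v (T n).length = T n := hv
    have h6 : (T n).length = n := by rw [← hTy, PiNat.res_length]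
    rw [h6, ← hTy] at h5
    exact h5
  rw [h2] at h4
  exact (disjoint_left.1 hd (hcV h4)) hwU

end BP

open BP

/-- BG-BP: analytic sets have the property of Baire -/
theorem t_BP : S_BP := by
  intro X _ _ s hs
  rw [AnalyticSet] at hs
  rcases hs with rfl | ⟨f, hf, rfl⟩
  · exact isOpen_empty.baireMeasurableSet
  · have hB : BaireSpace X := by
      letI := TopologicalSpace.upgradeIsCompletelyMetrizable X
      infer_instance
    have h0 : Im f [] = range f := by
      ext x
      constructor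
      · rintro ⟨y, -, rfl⟩
        exact ⟨y, rfl⟩
      · rintro ⟨y, rfl⟩
        exact ⟨y, rfl, rfl⟩
    have hM : IsMeagre (⋃ t : List ℕ, (D (Im f t) \ ⋃ i : ℕ, D (Im f (i :: t)))) := by
      apply isMeagre_iUnion
      intro t
      have h1 := key (fun i : ℕ => Im f (i :: t))
      rwa [← Im_union] at h1
    have hd : IsMeagre (range f \ D (range f)) := diff_meagre _
    refine (D_measurable (range f)).congr ?_
    rw [eventuallyEq_set]
    filter_upwards [show (⋃ t : List ℕ, (D (Im f t) \ ⋃ i : ℕ, D (Im f (i :: t))))ᶜ ∈ residual X from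
      hM, show (range f \ D (range f))ᶜ ∈ residual X from hd] with x hx1 hx2
    constructor
    · intro hxD
      rw [← h0] at hxD
      refine branch hf hxD (fun t ht => ?_)
      by_contra hcon
      apply hx1
      refine mem_iUnion.2 ⟨t, ht, fun h => ?_⟩
      exact hcon (mem_iUnion.1 h)
    · intro hxr
      by_contra hcon
      exact hx2 ⟨hxr, hcon⟩

end Pool.Agent.NH65.BG
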