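import Pool.Agent.NH65.BG.Stm

/-!
# A subgroup of countable index in a closed subgroup of a Polish group is not meagre in it
-/

set_option autoImplicit false

open Set Filter Topology

namespace Pool.Agent.NH65.BG

theorem t_CNT : S_CNT := by
  intro Γ _ _ _ _ L M hL c hc hM
  have : PolishSpace L := hL.polishSpace
  have : BaireSpace L := inferInstance
  have h1 : ∀ k, IsMeagre {x : L | (c k)⁻¹ * x.1 ∈ M} := by
    intro k
    by_cases hk : ∃ f : L, (c k)⁻¹ * f.1 ∈ M
    · obtain ⟨f, hf⟩ := hk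
      have h2 : IsMeagre ((Homeomorph.mulLeft f⁻¹ : L ≃ₜ L) ⁻¹' {x : L | x.1 ∈ M}) :=
        hM.preimage_of_isOpenMap (Homeomorph.mulLeft f⁻¹).continuous
          (Homeomorph.mulLeft f⁻¹).isOpenMap
      refine h2.mono ?_
      intro x hx
      have h3 : ((c k)⁻¹ * f.1)⁻¹ * ((c k)⁻¹ * x.1) ∈ M := M.mul_mem (M.inv_mem hf) hx
      have h4 : ((c k)⁻¹ * f.1)⁻¹ * ((c k)⁻¹ * x.1) = (f⁻¹ * x : L).1 := by
        simp only [Subgroup.coe_mul, Subgroup.coe_inv]
        group
      rw [h4] at h3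
      exact h3
    · have : {x : L | (c k)⁻¹ * x.1 ∈ M} = ∅ := by
        ext x
        simp only [mem_ofPred_eq, mem_empty_iff_false, iff_false]
        exact fun h => hk ⟨x, h⟩
      rw [this]
      exact IsMeagre.empty
  have h5 : IsMeagre (univ : Set L) := by
    refine (isMeagre_iUnion h1).mono ?_
    intro x _
    obtain ⟨k, hk⟩ := hc x.1 x.2
    exact mem_iUnion.2 ⟨k, hk⟩
  exact not_isMeagre_of_isOpen isOpen_univ univ_nonempty h5

end Pool.Agent.NH65.BG
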