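import Pool.Agent.NH65.BG.Stm2

/-!
# Project BG: homomorphisms from a Polish group to a group in which powers are long
-/

set_option autoImplicit false

open Set Filter Topology

namespace Pool.Agent.NH65.BG

namespace DUDAux

section alg

variable {A : Type} [Group A] {ℓ : A → ℕ}

/-- the algebraic part of the proof -/
theorem algebra (hℓ : IsDudleyLength ℓ) (a b : ℕ → A) (m : ℕ → ℕ) (hb : ∀ k, b k ≠ 1)
    (hm : ∀ k, m k = k + ∑ i ∈ Finset.range (k + 1), ℓ (b i))
    (hab : ∀ k, a k = b k * a (k + 1) ^ m k) : False := by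
  have hb1 : ∀ k, 1 ≤ ℓ (b k) := fun k => by
    have h := (hℓ.zero (b k)).not.2 (hb k)
    omega
  have hm1 : ∀ k, 1 ≤ m k := fun k => by
    have h := hm k
    rw [Finset.sum_range_succ] at h
    have := hb1 k
    omega
  have hpow : ∀ k, ℓ (a (k + 1) ^ m k) ≤ ℓ (b k) + ℓ (a k) := fun k => by
    have h1 : a (k + 1) ^ m k = (b k)⁻¹ * a k := by
      rw [hab k, inv_mul_cancel_left]
    rw [h1]
    have h2 := hℓ.mul (b k)⁻¹ (a k)
    rw [hℓ.inv] at h2
    exact h2
  have down : ∀ (s : ℕ), 1 ≤ s → ∀ j, s + ∑ i ∈ Finset.range j, ℓ (b i) ≤ ℓ (a j) →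
      s ≤ ℓ (a 0) := by
    intro s hs j
    induction j with
    | zero => intro h; simpa using h
    | succ j ih =>
      intro h
      apply ih
      have h1 : a (j + 1) ≠ 1 := fun h2 => by
        have := (hℓ.zero _).2 h2
        omega
      have h2 := (hℓ.pow _ h1 (m j) (hm1 j)).2
      have h3 := hpow j
      rw [Finset.sum_range_succ] at h
      omega
  have big : ∀ k, 1 ≤ k → a (k + 1) ≠ 1 → k ≤ ℓ (a 0) := by
    intro k hk h1
    apply down k hk k
    have h2 := (hℓ.pow _ h1 (m k) (hm1 k)).1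
    have h3 := hpow k
    have h4 := hm k
    rw [Finset.sum_range_succ] at h4
    omega
  by_cases h1 : a (ℓ (a 0) + 1 + 1) = 1
  · have h2 : a (ℓ (a 0) + 1 + 1 + 1) ≠ 1 := by
      intro h3
      have h4 := hab (ℓ (a 0) + 1 + 1)
      rw [h3, one_pow, mul_one, h1] at h4
      exact hb _ h4.symm
    have := big _ (by omega) h2
    omega
  · have := big _ (by omega) h1
    omega

end alg

variable {Γ A : Type} [Group Γ] [Group A]

/-- the exponents -/
def mm (ℓ : A → ℕ) (c : Γ →* A) (g : ℕ → Γ) (k : ℕ) : ℕ :=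
  k + ∑ i ∈ Finset.range (k + 1), ℓ (c (g i))

/-- the compositions of the maps `x ↦ g_j x ^ m_j`, `k ≤ j < k + r` -/
def PP (ℓ : A → ℕ) (c : Γ →* A) (g : ℕ → Γ) (k : ℕ) : ℕ → Γ → Γ
  | 0, x => x
  | r + 1, x => PP ℓ c g k r (g (k + r) * x ^ mm ℓ c g (k + r))

theorem PP_front (ℓ : A → ℕ) (c : Γ →* A) (g : ℕ → Γ) (r : ℕ) : ∀ (k : ℕ) (x : Γ),
    PP ℓ c g k (r + 1) x = g k * PP ℓ c g (k + 1) r x ^ mm ℓ c g k := by
  induction r with
  | zero => intro k x; rfl
  | succ r ih =>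
    intro k x
    show PP ℓ c g k (r + 1) (g (k + (r + 1)) * x ^ mm ℓ c g (k + (r + 1))) = _
    rw [ih k]
    congr 2
    show _ = PP ℓ c g (k + 1) r (g (k + 1 + r) * x ^ mm ℓ c g (k + 1 + r))
    rw [show k + (r + 1) = k + 1 + r by omega]

theorem mm_congr (ℓ : A → ℕ) (c : Γ →* A) {g g' : ℕ → Γ} {k : ℕ} (h : ∀ i, i ≤ k → g i = g' i) :
    mm ℓ c g k = mm ℓ c g' k := by
  unfold mm
  congr 1
  refine Finset.sum_congr rfl fun i hi => ?_
  rw [h i (by rw [Finset.mem_range] at hi; omega)]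

theorem PP_congr (ℓ : A → ℕ) (c : Γ →* A) {g g' : ℕ → Γ} {k : ℕ} (r : ℕ)
    (h : ∀ i, i < k + r → g i = g' i) (x : Γ) : PP ℓ c g k r x = PP ℓ c g' k r x := by
  induction r generalizing x with
  | zero => rfl
  | succ r ih =>
    show PP ℓ c g k r (g (k + r) * x ^ mm ℓ c g (k + r)) =
      PP ℓ c g' k r (g' (k + r) * x ^ mm ℓ c g' (k + r))
    rw [ih (fun i hi => h i (by omega)), h (k + r) (by omega),
      mm_congr ℓ c (fun i hi => h i (by omega))]

theorem PP_cont [TopologicalSpace Γ] [IsTopologicalGroup Γ] (ℓ : A → ℕ) (c : Γ →* A) (g : ℕ → Γ)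
    (k r : ℕ) : Continuous (PP ℓ c g k r) := by
  induction r with
  | zero => exact continuous_id
  | succ r ih =>
    have h1 : Continuous fun x : Γ => g (k + r) * x ^ mm ℓ c g (k + r) :=
      continuous_const.mul (continuous_pow _)
    exact ih.comp h1

/-- the sequence -/
theorem exists_seq [MetricSpace Γ] [IsTopologicalGroup Γ] (ℓ : A → ℕ) (c : Γ →* A)
    (hneg : ∀ V ∈ 𝓝 (1 : Γ), ∃ f ∈ V, c f ≠ 1) :
    ∃ g : ℕ → Γ, ∀ n, c (g n) ≠ 1 ∧ ∀ k, k ≤ n →
      dist (PP ℓ c g k (n - k) (g n)) (PP ℓ c g k (n - k) 1) < (1 / 2 : ℝ) ^ n := by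
  classical
  have step : ∀ (g : ℕ → Γ) (n : ℕ), ∃ x : Γ, c x ≠ 1 ∧ ∀ k, k ≤ n →
      dist (PP ℓ c g k (n - k) x) (PP ℓ c g k (n - k) 1) < (1 / 2 : ℝ) ^ n := by
    intro g n
    have h1 : ∀ᶠ x in 𝓝 (1 : Γ), ∀ k ∈ Finset.range (n + 1),
        dist (PP ℓ c g k (n - k) x) (PP ℓ c g k (n - k) 1) < (1 / 2 : ℝ) ^ n := by
      rw [Filter.eventually_all_finset]
      intro k _
      have h2 := (PP_cont ℓ c g k (n - k)).continuousAt (x := (1 : Γ))
      exact h2.eventually (Metric.ball_mem_nhds _ (by positivity))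
    obtain ⟨x, hx, hcx⟩ := hneg _ h1
    exact ⟨x, hcx, fun k hk => hx k (Finset.mem_range.2 (by omega))⟩
  choose pick hp1 hp2 using step
  let s : ℕ → ℕ → Γ := fun n => Nat.rec (fun _ => 1)
    (fun n f => Function.update f n (pick f n)) n
  have hs : ∀ n, s (n + 1) = Function.update (s n) n (pick (s n) n) := fun n => rfl
  have hag : ∀ n j, j < n → s n j = s (j + 1) j := by
    intro n
    induction n with
    | zero => intro j hj; omega
    | succ n ih =>
      intro j hj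
      rcases Nat.lt_succ_iff_lt_or_eq.1 hj with h | h
      · rw [hs, Function.update_of_ne (by omega), ih j h]
      · rw [h]
  refine ⟨fun n => s (n + 1) n, fun n => ?_⟩
  have hx : s (n + 1) n = pick (s n) n := by rw [hs, Function.update_self]
  refine ⟨by show c (s (n + 1) n) ≠ 1; rw [hx]; exact hp1 _ _, fun k hk => ?_⟩
  have h1 := hp2 (s n) n k hk
  rw [PP_congr ℓ c (g' := fun n => s (n + 1) n) (n - k) (fun i hi => hag n i (by omega)),
    PP_congr ℓ c (g' := fun n => s (n + 1) n) (n - k) (fun i hi => hag n i (by omega))] at h1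
  show dist (PP ℓ c (fun n => s (n + 1) n) k (n - k) (s (n + 1) n)) _ < _
  rw [hx]
  exact h1

end DUDAux

open DUDAux in
theorem t_DUD : S_DUD := by
  intro Γ _ _ _ _ A _ ℓ hℓ c
  by_contra hcon
  push Not at hcon
  letI := TopologicalSpace.upgradeIsCompletelyMetrizable Γ
  obtain ⟨g, hg⟩ := exists_seq ℓ c hcon
  have hu : ∀ k, ∃ h : Γ, Tendsto (fun r => PP ℓ c g k r 1) atTop (𝓝 h) := by
    intro k
    apply cauchySeq_tendsto_of_complete
    refine cauchySeq_of_le_geometric (1 / 2) 1 (by norm_num) fun r => ?_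
    have h1 := (hg (k + r)).2 k (by omega)
    rw [Nat.add_sub_cancel_left] at h1
    have h2 : PP ℓ c g k (r + 1) 1 = PP ℓ c g k r (g (k + r)) := by
      show PP ℓ c g k r (g (k + r) * 1 ^ mm ℓ c g (k + r)) = _
      rw [one_pow, mul_one]
    rw [h2, dist_comm, one_mul]
    refine h1.le.trans ?_
    exact pow_le_pow_of_le_one (by norm_num) (by norm_num) (by omega)
  choose h hh using hu
  have hrel : ∀ k, h k = g k * h (k + 1) ^ mm ℓ c g k := by
    intro k
    have h1 : Tendsto (fun r => PP ℓ c g k (r + 1) 1) atTop (𝓝 (h k)) :=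
      (hh k).comp (tendsto_add_atTop_nat 1)
    have h2 : Tendsto (fun r => g k * PP ℓ c g (k + 1) r 1 ^ mm ℓ c g k) atTop
        (𝓝 (g k * h (k + 1) ^ mm ℓ c g k)) := ((hh (k + 1)).pow _).const_mul _
    refine tendsto_nhds_unique h1 (h2.congr fun r => ?_)
    rw [PP_front]
  refine algebra hℓ (fun k => c (h k)) (fun k => c (g k)) (mm ℓ c g) (fun k => (hg k).1)
    (fun k => rfl) (fun k => ?_)
  show c (h k) = c (g k) * c (h (k + 1)) ^ mm ℓ c g k
  rw [← map_pow, ← map_mul, ← hrel k]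

end Pool.Agent.NH65.BG
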