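import Pool.Agent.NH65.BG.Stm

/-!
# Large quotients of the group of Hamiltonian homeomorphisms of the ball: definitions

`Homeos n`, `HamHomeo n`: `Pool/Agent/R773/HN/Defs.lean`; the topology of `Homeos n`, `Gam n r`, `img N`:
`Pool/Agent/NH65/BG/Stm.lean`.
-/

set_option autoImplicit false

open Set Filter Topology MeasureTheory
open Pool.Agent.R773.HN

namespace Pool.Agent.NH65.BG

/-- the subgroup `N` of `G` has the property of Baire in all the groups `Gam n r`, `0 < r < 1` -/
def HasBaireProperty {n : ℕ} (N : Subgroup (HamHomeo n)) : Prop :=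
  ∀ r : ℝ, 0 < r → r < 1 → BaireMeasurableSet {x : Gam n r | x.1 ∈ img N}

/-- `N` has uncountable index in `G`, and its intersection with `Gam n r` is a meagre subset of `Gam n r` for all
`r < 1` which are close enough to `1` -/
def IsSmall {n : ℕ} (N : Subgroup (HamHomeo n)) : Prop :=
  Uncountable (HamHomeo n ⧸ N) ∧ ∃ r₀ : ℝ, 0 < r₀ ∧ r₀ < 1 ∧ ∀ r : ℝ, r₀ ≤ r → r < 1 →
    IsMeagre {x : Gam n r | x.1 ∈ img N}

end Pool.Agent.NH65.BG
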