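import Pool.Agent.NH65.BG.Stm2
import Mathlib.GroupTheory.FreeGroup.NielsenSchreier

/-!
# Homomorphisms to free groups
-/

set_option autoImplicit false

namespace Pool.Agent.NH65.BG

theorem t_FREE : S_FREE := by
  intro G _ hG A _ _ c
  have hB : ∀ x : IsFreeGroup.Generators c.range, False := by
    intro x
    obtain ⟨f, hf⟩ : ∃ f : c.range →* Multiplicative ℤ,
        f (IsFreeGroup.of x) = Multiplicative.ofAdd 1 :=
      ⟨IsFreeGroup.lift (fun _ => Multiplicative.ofAdd 1), IsFreeGroup.lift_of _ x⟩
    obtain ⟨g, hg⟩ := c.rangeRestrict_surjective (IsFreeGroup.of x)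
    have h1 : f.comp c.rangeRestrict = 1 := hG _
    have h2 : f (c.rangeRestrict g) = 1 := DFunLike.congr_fun h1 g
    rw [hg, hf] at h2
    exact one_ne_zero (Multiplicative.ofAdd.injective h2)
  have hid : MonoidHom.id c.range = 1 := IsFreeGroup.ext_hom fun a => (hB a).elim
  ext g
  have h3 : c.rangeRestrict g = 1 := DFunLike.congr_fun hid (c.rangeRestrict g)
  exact congrArg Subtype.val h3

end Pool.Agent.NH65.BG
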