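import Pool.Agent.NH65.BG.Stm

/-!
# Project BG: assembly
-/

set_option autoImplicit false

open Set Filter Topology MeasureTheory
open Pool.Agent.Y453.HB (E Q)
open Pool.Agent.R773.HN
open scoped Pointwise

namespace Pool.Agent.NH65.BG

/-- the subgroup `N` of `G` as a subgroup of `Homeos n` -/
noncomputable def imgS {n : ℕ} (N : Subgroup (HamHomeo n)) : Subgroup (Homeos n) := N.map (HamHomeo n).subtype

theorem coe_imgS {n : ℕ} (N : Subgroup (HamHomeo n)) : (imgS N : Set (Homeos n)) = img N := by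
  ext f
  simp [imgS, img]

theorem mem_imgS {n : ℕ} {N : Subgroup (HamHomeo n)} {f : Homeos n} : f ∈ imgS N ↔ f ∈ img N := by
  rw [← coe_imgS]; rfl

theorem Gam_mono {n : ℕ} {r s : ℝ} (hr : 0 ≤ r) (h : r ≤ s) : Gam n r ⊆ Gam n s := by
  apply closure_mono
  rintro u ⟨h1, h2⟩
  exact ⟨h1, fun x hx => h2 x (lt_of_le_of_lt (pow_le_pow_left₀ hr h 2) hx)⟩

/-- a subgroup which is open in every `Gam n r` is `G` -/
theorem top_of_open (hP : S_POL) (hN : S_NBH) (hA : S_GA) (hC : S_GC) (hS : S_SPL) {n : ℕ}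
    (N : Subgroup (HamHomeo n))
    (ho : ∀ r : ℝ, 0 < r → r < 1 → ∃ V ∈ 𝓝 (1 : Homeos n), ∀ f ∈ V, f ∈ Gam n r → f ∈ img N) : N = ⊤ := by
  have := (hP n).1
  have := (hP n).2
  have key : ∀ u : Homeos n, IsHamDiffeo u → u ∈ imgS N := by
    intro u hu
    obtain ⟨r, hr, hr1, h⟩ := hS n u hu
    obtain ⟨V, hV, hVN⟩ := ho r hr hr1
    obtain ⟨ε, hε, hεV⟩ := hN n V hV
    obtain ⟨l, hl, hlv⟩ := h ε hε
    rw [← hl]
    apply Subgroup.list_prod_mem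
    intro v hv
    obtain ⟨h1, h2, h3⟩ := hlv v hv
    exact mem_imgS.2 (hVN v (hεV v h3) (subset_closure ⟨h1, h2⟩))
  rw [eq_top_iff]
  rintro ⟨f, hf⟩ -
  obtain ⟨j, hj⟩ := hC n f hf
  have hj2 : (0 : ℝ) < (j : ℝ) + 2 := by positivity
  have hr0 : (0 : ℝ) < 1 - 1 / ((j : ℝ) + 2) := by
    rw [sub_pos, div_lt_one hj2]
    linarith [(Nat.cast_nonneg j : (0 : ℝ) ≤ j)]
  have hr1 : 1 - 1 / ((j : ℝ) + 2) < 1 := by
    have : 0 < 1 / ((j : ℝ) + 2) := by positivity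
    linarith
  obtain ⟨V, hV, hVN⟩ := ho _ hr0 hr1
  obtain ⟨L, hL⟩ := hA n (1 - 1 / ((j : ℝ) + 2))
  have hW : {u : Homeos n | u⁻¹ * f ∈ V} ∈ 𝓝 f := by
    have hc : ContinuousAt (fun u : Homeos n => u⁻¹ * f) f := by fun_prop
    have h0 : V ∈ 𝓝 ((fun u : Homeos n => u⁻¹ * f) f) := by
      show V ∈ 𝓝 (f⁻¹ * f)
      rw [inv_mul_cancel]
      exact hV
    exact hc h0
  obtain ⟨u, hu1, hu2⟩ := mem_closure_iff_nhds.1 hj _ hW
  have h1 : u ∈ imgS N := key u hu2.1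
  have h2 : u⁻¹ * f ∈ Gam n (1 - 1 / ((j : ℝ) + 2)) := by
    rw [← hL]
    have hu3 : u ∈ L := by
      rw [← SetLike.mem_coe, hL]
      exact subset_closure hu2
    have hf3 : f ∈ L := by
      rw [← SetLike.mem_coe, hL]
      exact hj
    exact L.mul_mem (L.inv_mem hu3) hf3
  have h3 : u⁻¹ * f ∈ imgS N := mem_imgS.2 (hVN _ hu1 h2)
  have h4 : f ∈ imgS N := by
    have := (imgS N).mul_mem h1 h3
    rwa [mul_inv_cancel_left] at this
  obtain ⟨g, hg, hgf⟩ := mem_imgS.1 h4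
  have : g = ⟨f, hf⟩ := Subtype.ext hgf
  rwa [this] at hg

/-- an open condition from the property of Baire -/
theorem open_of (hPET : S_PET) {Γ : Type} [Group Γ] [TopologicalSpace Γ] [IsTopologicalGroup Γ] [PolishSpace Γ]
    (L M : Subgroup Γ) (hL : IsClosed (L : Set Γ)) (hB : BaireMeasurableSet {x : L | x.1 ∈ M})
    (hm : ¬ IsMeagre {x : L | x.1 ∈ M}) : ∃ V ∈ 𝓝 (1 : Γ), ∀ f ∈ V, f ∈ L → f ∈ M := by
  have : PolishSpace L := hL.polishSpace
  have h1 := hPET L _ hB hm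
  have h2 : {x : L | x.1 ∈ M} ∈ 𝓝 (1 : L) := by
    refine mem_of_superset h1 ?_
    rintro _ ⟨a, ha, b, hb, rfl⟩
    exact M.mul_mem ha (by simpa using M.inv_mem (show (b⁻¹ : L).1 ∈ M from hb))
  rw [nhds_subtype_eq_comap] at h2
  obtain ⟨V, hV, hVM⟩ := h2
  exact ⟨V, hV, fun f hf hfL => hVM (show ((⟨f, hfL⟩ : L) : Γ) ∈ V from hf)⟩

/-- meagre sets in the subgroup and in its carrier -/
theorem meagre_iff {Γ : Type} [Group Γ] [TopologicalSpace Γ] (L : Subgroup Γ) (s : Set Γ) (h : (L : Set Γ) = s)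
    (M : Set Γ) : IsMeagre {x : L | x.1 ∈ M} ↔ IsMeagre {x : s | x.1 ∈ M} := by
  subst h; rfl

theorem baire_iff {Γ : Type} [Group Γ] [TopologicalSpace Γ] (L : Subgroup Γ) (s : Set Γ) (h : (L : Set Γ) = s)
    (M : Set Γ) : BaireMeasurableSet {x : L | x.1 ∈ M} ↔ BaireMeasurableSet {x : s | x.1 ∈ M} := by
  subst h; rfl

/-- **the dichotomy** -/
theorem dichotomy (hPET : S_PET) (hP : S_POL) (hCNT : S_CNT) (hNB : S_NBH) (hA : S_GA) (hGB : S_GB) (hC : S_GC)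
    (hS : S_SPL) {n : ℕ} (N : Subgroup (HamHomeo n)) (hN : N ≠ ⊤)
    (hb : ∀ r : ℝ, 0 < r → r < 1 → BaireMeasurableSet {x : Gam n r | x.1 ∈ img N}) :
    Uncountable (HamHomeo n ⧸ N) ∧ ∃ r₀ : ℝ, 0 < r₀ ∧ r₀ < 1 ∧ ∀ r : ℝ, r₀ ≤ r → r < 1 →
      IsMeagre {x : Gam n r | x.1 ∈ img N} := by
  have := (hP n).1
  have := (hP n).2
  have hclosed : ∀ r, IsClosed (Gam n r) := fun r => isClosed_closure
  have hop : ∀ r : ℝ, 0 < r → r < 1 → ¬ IsMeagre {x : Gam n r | x.1 ∈ img N} →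
      ∃ V ∈ 𝓝 (1 : Homeos n), ∀ f ∈ V, f ∈ Gam n r → f ∈ img N := by
    intro r hr hr1 hm
    obtain ⟨L, hL⟩ := hA n r
    have h1 := hb r hr hr1
    rw [← baire_iff L _ hL] at h1
    rw [← meagre_iff L _ hL] at hm
    simp only [← mem_imgS] at h1 hm
    obtain ⟨V, hV, h2⟩ := open_of hPET L (imgS N) (by rw [hL]; exact hclosed r) h1 hm
    refine ⟨V, hV, fun f hf hfG => mem_imgS.1 (h2 f hf ?_)⟩
    rw [← SetLike.mem_coe, hL]
    exact hfG
  constructor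
  · by_contra hc
    rw [not_uncountable_iff] at hc
    apply hN
    apply top_of_open hP hNB hA hC hS N
    intro r hr hr1
    apply hop r hr hr1
    obtain ⟨L, hL⟩ := hA n r
    rw [← meagre_iff L _ hL]
    simp only [← mem_imgS]
    obtain ⟨q, hq⟩ := exists_surjective_nat (HamHomeo n ⧸ N)
    refine hCNT (Homeos n) L (imgS N) (by rw [hL]; exact hclosed r) (fun k => ((q k).out : HamHomeo n).1) ?_
    intro f hf
    have hfG : f ∈ HamHomeo n := by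
      have : f ∈ Gam n r := by rw [← hL]; exact hf
      exact hGB n r hr hr1 this
    obtain ⟨k, hk⟩ := hq (QuotientGroup.mk ⟨f, hfG⟩)
    refine ⟨k, ?_⟩
    have h1 : (q k).out⁻¹ * (⟨f, hfG⟩ : HamHomeo n) ∈ N := by
      rw [← QuotientGroup.eq]
      rw [QuotientGroup.out_eq', hk]
    exact mem_imgS.2 ⟨_, h1, rfl⟩
  · by_contra hc
    push Not at hc
    apply hN
    apply top_of_open hP hNB hA hC hS N
    intro r hr hr1
    obtain ⟨s, hs, hs1, hsm⟩ := hc r hr hr1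
    obtain ⟨V, hV, h⟩ := hop s (lt_of_lt_of_le hr hs) hs1 hsm
    exact ⟨V, hV, fun f hf hfG => h f hf (Gam_mono hr.le hs hfG)⟩

end Pool.Agent.NH65.BG
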