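import Pool.Agent.NH65.BG.Stm
import Pool.Agent.Y907.HB.Mul
import Pool.Agent.Y510.HB.Inv

/-!
# BG-GA: the sets `Gam n r` are subgroups
-/

set_option autoImplicit false

open Set Filter Topology MeasureTheory
open Pool.Agent.Y453.HB (E Q)
open Pool.Agent.R773.HN
open scoped Pointwise

namespace Pool.Agent.NH65.BG

namespace GA

/-- the Hamiltonian diffeomorphisms which are the identity outside the closed ball of radius `r` -/
noncomputable def U (n : ℕ) (r : ℝ) : Subgroup (Homeos n) where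
  carrier := {u | IsHamDiffeo u ∧ ∀ x, r ^ 2 < Q x → u.map x = x}
  mul_mem' := by
    rintro u v ⟨hu, hu'⟩ ⟨hv, hv'⟩
    refine ⟨Pool.Agent.Y907.HB.mul n u.homeo v.homeo hu hv, fun x hx => ?_⟩
    show u.map (v.map x) = x
    rw [hv' x hx, hu' x hx]
  one_mem' := ⟨(Pool.Agent.Y510.HB.inv n).1, fun x _ => rfl⟩
  inv_mem' := by
    rintro u ⟨hu, hu'⟩
    refine ⟨(Pool.Agent.Y510.HB.inv n).2 u.homeo hu, fun x hx => ?_⟩
    show u.homeo.symm x = x
    rw [Homeomorph.symm_apply_eq]
    exact (hu' x hx).symm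

end GA

/-- BG-GA: the sets `Gam n r` are subgroups -/
theorem t_GA (h1 : S_POL) : S_GA := by
  intro n r
  have := (h1 n).1
  have := (h1 n).2
  exact ⟨(GA.U n r).topologicalClosure, rfl⟩

end Pool.Agent.NH65.BG
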