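import Pool.Agent.NH65.BG.Stm
import Pool.Agent.Y453.HB.Tri

/-!
# BG-GB: `Gam n r` is contained in `G`
-/

set_option autoImplicit false

open Set Filter Topology MeasureTheory
open Pool.Agent.Y453.HB (E Q IsHam hamBar HamBar)
open Pool.Agent.R773.HN

namespace Pool.Agent.NH65.BG

theorem t_GB (h1 : S_POL) (h2 : S_TOP) : S_GB := by
  intro n r hr hr1 f hf
  have := (h1 n).1
  obtain ⟨u, hu, hlim⟩ := mem_closure_iff_seq_limit.1 hf
  have hT := (h2 n u f).1 hlim
  have hK : IsCompact {x : E n | Q x ≤ r ^ 2} := (Pool.Agent.Y453.HB.tri n).2.2.2.2.1 _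
  have huu : TendstoUniformlyOn (fun k x => (u k).map x) f.map atTop {x : E n | Q x ≤ r ^ 2} :=
    (hT _ hK).1
  have hoff : ∀ x : E n, ¬ Q x ≤ r ^ 2 → f.map x = x := by
    intro x hx
    have h3 := (hT {x} isCompact_singleton).1
    have h4 : Tendsto (fun k => (u k).map x) atTop (𝓝 (f.map x)) := h3.tendsto_at (mem_singleton x)
    have h5 : (fun k => (u k).map x) = fun _ => x := by
      funext k
      exact (hu k).2 x (not_le.1 hx)
    rw [h5] at h4
    exact (tendsto_nhds_unique tendsto_const_nhds h4).symm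
  have hmem : f.homeo ∈ hamBar n := by
    refine ⟨{x : E n | Q x ≤ r ^ 2}, hK, ?_, ?_, fun k => (u k).homeo, ?_, ?_, ?_⟩
    · intro x hx
      have : r ^ 2 < 1 := by nlinarith
      exact lt_of_le_of_lt hx this
    · intro x hx
      exact hoff x hx
    · intro k x hx
      exact (hu k).2 x (not_le.1 hx)
    · intro k
      exact (hu k).1
    · rw [Metric.tendstoUniformly_iff]
      intro ε hε
      have h6 := Metric.tendstoUniformlyOn_iff.1 huu ε hε
      filter_upwards [h6] with k hk x
      by_cases hx : Q x ≤ r ^ 2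
      · exact hk x hx
      · have e1 : f.homeo x = x := hoff x hx
        have e2 : (u k).homeo x = x := (hu k).2 x (not_le.1 hx)
        rw [e1, e2, dist_self]
        exact hε
  have h7 : f.homeo ∈ HamBar n := Subgroup.subset_closure hmem
  exact h7

end Pool.Agent.NH65.BG
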