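import Pool.Agent.NH65.BG.Stm
import Pool.Agent.Y453.HB.Asm
import Pool.Agent.Y907.HB.Mul
import Pool.Agent.Y510.HB.Inv
import Pool.Agent.Y309.HB.UC

/-!
# BG-GC (helper17): every element of `G` is in some `Gam n r`
-/

set_option autoImplicit false

open Set Filter Topology
open Pool.Agent.Y453.HB (E Q IsHam hamBar HamBar UConv mem_iff uconv_of Q_cont Q_nonneg)
open Pool.Agent.R773.HN

namespace Pool.Agent.NH65.BG

namespace GC

theorem bound {n : ℕ} {K : Set (E n)} (hK : IsCompact K) (hK1 : K ⊆ {p : E n | Q p < 1}) :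
    ∃ c : ℝ, c < 1 ∧ ∀ x ∈ K, Q x ≤ c := by
  rcases K.eq_empty_or_nonempty with rfl | hne
  · exact ⟨0, one_pos, fun x hx => hx.elim⟩
  · obtain ⟨x, hx, hmax⟩ := hK.exists_isMaxOn hne Q_cont.continuousOn
    exact ⟨Q x, hK1 hx, fun y hy => hmax hy⟩

theorem radius {c : ℝ} (hc : c < 1) : ∃ j : ℕ, c < (1 - 1 / ((j : ℝ) + 2)) ^ 2 := by
  obtain ⟨j, hj⟩ := exists_nat_gt (2 / (1 - c))
  refine ⟨j, ?_⟩
  have h1 : 0 < 1 - c := by linarith
  rw [div_lt_iff₀ h1] at hj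
  have h2 : (0 : ℝ) < (j : ℝ) + 2 := by positivity
  have h3 : 2 * (1 / ((j : ℝ) + 2)) < 1 - c := by
    rw [mul_one_div, div_lt_iff₀ h2]
    nlinarith
  nlinarith [sq_nonneg (1 / ((j : ℝ) + 2))]

end GC

theorem t_GC (h2 : S_TOP) : S_GC := by
  intro n f hf
  have hf' : f.homeo ∈ hamBar n :=
    (mem_iff Pool.Agent.Y907.HB.mul Pool.Agent.Y510.HB.inv Pool.Agent.Y309.HB.uc).1 hf
  obtain ⟨K, hK, hK1, hK2, u, hu1, hu2, hu3⟩ := hf'
  obtain ⟨c, hc1, hc⟩ := GC.bound hK hK1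
  obtain ⟨j, hj⟩ := GC.radius hc1
  refine ⟨j, ?_⟩
  have hconv : UConv u f.homeo := uconv_of Pool.Agent.Y309.HB.uc hK hK2 hu3
  have hinv := (Pool.Agent.Y309.HB.uc n).2.1 _ _ hconv
  let w : ℕ → Homeos n := fun k => u k
  have htend : Tendsto w atTop (𝓝 f) := by
    refine (h2 n w f).2 fun L _ => ⟨?_, ?_⟩
    · exact hconv.1.tendstoUniformlyOn
    · exact hinv.1.tendstoUniformlyOn
  refine mem_closure_of_tendsto htend (Eventually.of_forall fun k => ⟨hu2 k, fun x hx => ?_⟩)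
  refine hu1 k x fun hxK => ?_
  have := hc x hxK
  linarith

end Pool.Agent.NH65.BG
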