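import Pool.Agent.NH65.BG.Stm

/-!
# Neighbourhoods of the identity in the group of the homeomorphisms of `ℝ^{2n}`

A homeomorphism which moves all the points by less than `ε` is close to the identity, and its inverse moves all the
points by less than `ε` as well.
-/

set_option autoImplicit false

open Set Filter Topology
open Pool.Agent.Y453.HB (E Q)
open Pool.Agent.R773.HN

namespace Pool.Agent.NH65.BG

namespace NBH

/-- a homeomorphism as a continuous map -/
def cm {n : ℕ} (f : Homeos n) : C(E n, E n) := ContinuousMap.mk f.map f.homeo.continuous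

/-- the inverse of a homeomorphism as a continuous map -/
def ci {n : ℕ} (f : Homeos n) : C(E n, E n) := ContinuousMap.mk f.homeo.symm f.homeo.symm.continuous

theorem inv_move {n : ℕ} (v : Homeos n) (ε : ℝ) (h : ∀ x, ‖v.map x - x‖ < ε) (x : E n) :
    ‖v.homeo.symm x - x‖ < ε := by
  have h1 := h (v.homeo.symm x)
  have h2 : v.map (v.homeo.symm x) = x := v.homeo.apply_symm_apply x
  rw [h2] at h1
  rw [norm_sub_rev]
  exact h1

theorem tendsto_cm {n : ℕ} (f : ℕ → C(E n, E n)) (g : C(E n, E n)) (hg : ∀ x, g x = x)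
    (h : ∀ k x, ‖f k x - x‖ < 1 / ((k : ℝ) + 1)) : Tendsto f atTop (𝓝 g) := by
  rw [ContinuousMap.tendsto_iff_forall_isCompact_tendstoUniformlyOn]
  intro K _
  rw [Metric.tendstoUniformlyOn_iff]
  intro ε hε
  obtain ⟨N, hN⟩ := exists_nat_one_div_lt hε
  filter_upwards [eventually_ge_atTop N] with k hk x _
  have h1 := h k x
  rw [hg, dist_comm, dist_eq_norm]
  refine h1.trans (lt_of_le_of_lt ?_ hN)
  apply one_div_le_one_div_of_le
  · positivity
  · have : (N : ℝ) ≤ (k : ℝ) := by exact_mod_cast hk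
    linarith

end NBH

open NBH in
theorem t_NBH : S_NBH := by
  intro n V hV
  by_contra hcon
  push Not at hcon
  have hpos : ∀ k : ℕ, 0 < 1 / ((k : ℝ) + 1) := fun k => by positivity
  choose v hv hvV using fun k : ℕ => hcon (1 / ((k : ℝ) + 1)) (hpos k)
  have h1 : Tendsto (fun k => cm (v k)) atTop (𝓝 (cm (1 : Homeos n))) :=
    tendsto_cm _ _ (fun x => rfl) (fun k x => hv k x)
  have h2 : Tendsto (fun k => ci (v k)) atTop (𝓝 (ci (1 : Homeos n))) :=
    tendsto_cm _ _ (fun x => rfl) (fun k x => inv_move (v k) _ (hv k) x)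
  have h3 : Tendsto v atTop (𝓝 (1 : Homeos n)) := by
    rw [nhds_induced, tendsto_comap_iff]
    exact h1.prodMk_nhds h2
  obtain ⟨k, hk⟩ := (h3.eventually hV).exists
  exact hvV k hk

end Pool.Agent.NH65.BG
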