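import Pool.Agent.NH65.BG.Stm

/-!
# Project BG (helper65), BG-POL: the homeomorphisms of `ℝ^{2n}` are a Polish group
-/

set_option autoImplicit false

open Set Filter Topology
open Pool.Agent.Y453.HB (E Q)
open Pool.Agent.R773.HN

namespace Pool.Agent.NH65.BG

namespace POL

variable {n : ℕ}

/-- the homeomorphism as a continuous map -/
noncomputable def fw (f : Homeos n) : C(E n, E n) := ContinuousMap.mk f.map f.homeo.continuous

/-- the inverse as a continuous map -/
noncomputable def bw (f : Homeos n) : C(E n, E n) :=
  ContinuousMap.mk f.homeo.symm f.homeo.symm.continuous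

/-- the embedding -/
noncomputable def FF (f : Homeos n) : C(E n, E n) × C(E n, E n) := (fw f, bw f)

lemma FF_inducing : IsInducing (FF (n := n)) := ⟨rfl⟩

lemma FF_inj : Function.Injective (FF (n := n)) := by
  intro f g h
  have h1 : fw f = fw g := congrArg Prod.fst h
  have h2 : ∀ x, f.homeo x = g.homeo x := fun x => DFunLike.congr_fun h1 x
  exact Homeomorph.ext h2

lemma FF_range : Set.range (FF (n := n)) =
    {p | p.1.comp p.2 = ContinuousMap.id _ ∧ p.2.comp p.1 = ContinuousMap.id _} := by
  ext p
  constructor
  · rintro ⟨f, rfl⟩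
    constructor
    · refine ContinuousMap.ext fun x => ?_
      exact f.homeo.apply_symm_apply x
    · refine ContinuousMap.ext fun x => ?_
      exact f.homeo.symm_apply_apply x
  · rintro ⟨h1, h2⟩
    refine ⟨(⟨⟨p.1, p.2, fun x => DFunLike.congr_fun h2 x, fun x => DFunLike.congr_fun h1 x⟩,
      p.1.continuous, p.2.continuous⟩ : E n ≃ₜ E n), ?_⟩
    refine Prod.ext ?_ ?_
    · exact ContinuousMap.ext fun x => rfl
    · exact ContinuousMap.ext fun x => rfl

lemma FF_closed : IsClosed (Set.range (FF (n := n))) := by
  rw [FF_range]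
  have h1 : Continuous fun p : C(E n, E n) × C(E n, E n) => p.2.comp p.1 :=
    ContinuousMap.continuous_comp'
  have h2 : Continuous fun p : C(E n, E n) × C(E n, E n) => p.1.comp p.2 :=
    h1.comp continuous_swap
  exact (isClosed_eq h2 continuous_const).inter (isClosed_eq h1 continuous_const)

lemma FF_emb : IsClosedEmbedding (FF (n := n)) := ⟨⟨FF_inducing, FF_inj⟩, FF_closed⟩

lemma polishC (n : ℕ) : PolishSpace C(E n, E n) := by
  have h : TopologicalSpace.IsCompletelyMetrizableSpace C(E n, E n) :=
    @TopologicalSpace.IsCompletelyMetrizableSpace.of_completeSpace_metrizable C(E n, E n)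
      ContinuousMap.compactConvergenceUniformSpace inferInstance inferInstance inferInstance
  exact inferInstance

lemma polish (n : ℕ) : PolishSpace (Homeos n) :=
  haveI := polishC n
  FF_emb.polishSpace

lemma fw_cont : Continuous (fw (n := n)) := FF_inducing.continuous.fst

lemma bw_cont : Continuous (bw (n := n)) := FF_inducing.continuous.snd

lemma fw_mul (f g : Homeos n) : fw (f * g) = (fw f).comp (fw g) :=
  ContinuousMap.ext fun _ => rfl

lemma bw_mul (f g : Homeos n) : bw (f * g) = (bw g).comp (bw f) :=
  ContinuousMap.ext fun _ => rfl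

lemma fw_inv (f : Homeos n) : fw f⁻¹ = bw f := ContinuousMap.ext fun _ => rfl

lemma bw_inv (f : Homeos n) : bw f⁻¹ = fw f := ContinuousMap.ext fun _ => rfl

lemma comp_cont : Continuous fun p : C(E n, E n) × C(E n, E n) => p.1.comp p.2 := by
  have h1 : Continuous fun p : C(E n, E n) × C(E n, E n) => p.2.comp p.1 :=
    ContinuousMap.continuous_comp'
  exact h1.comp continuous_swap

lemma topGroup (n : ℕ) : IsTopologicalGroup (Homeos n) where
  continuous_mul := by
    refine FF_inducing.continuous_iff.mpr ?_
    have h1 : Continuous fun p : Homeos n × Homeos n => (fw p.1).comp (fw p.2) :=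
      comp_cont.comp ((fw_cont.comp continuous_fst).prodMk (fw_cont.comp continuous_snd))
    have h2 : Continuous fun p : Homeos n × Homeos n => (bw p.2).comp (bw p.1) :=
      comp_cont.comp ((bw_cont.comp continuous_snd).prodMk (bw_cont.comp continuous_fst))
    have h3 : (FF ∘ fun p : Homeos n × Homeos n => p.1 * p.2) =
        fun p : Homeos n × Homeos n => ((fw p.1).comp (fw p.2), (bw p.2).comp (bw p.1)) := by
      funext p
      exact Prod.ext (fw_mul p.1 p.2) (bw_mul p.1 p.2)
    rw [h3]
    exact h1.prodMk h2
  continuous_inv := by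
    refine FF_inducing.continuous_iff.mpr ?_
    have h3 : (FF ∘ fun p : Homeos n => p⁻¹) = fun p : Homeos n => (bw p, fw p) := by
      funext p
      exact Prod.ext (fw_inv p) (bw_inv p)
    rw [h3]
    exact bw_cont.prodMk fw_cont

end POL

theorem t_POL : S_POL := fun n => ⟨POL.polish n, POL.topGroup n⟩

end Pool.Agent.NH65.BG
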