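import Pool.Agent.NH65.BG.Stm
import Pool.Agent.R773.HN.Tflow
import Pool.Agent.R773.HN.Flow
import Pool.Agent.R773.HN.Uni2
import Pool.Agent.R773.HN.Bd

/-!
# Project BG, part BG-SPL: splitting a Hamiltonian isotopy in time
-/

set_option autoImplicit false

open Set Filter Topology
open Pool.Agent.Y453.HB (E Q IsHam XH)
open Pool.Agent.R773.HN

namespace Pool.Agent.NH65.BG

namespace SPL

variable {n : ℕ}

lemma Q_nonneg (x : E n) : 0 ≤ Q x := Finset.sum_nonneg fun i _ => by positivity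

lemma Q_cont : Continuous (Q : E n → ℝ) := by
  unfold Q
  fun_prop

lemma exists_r {K : Set (E n)} (hK : IsCompact K) (hKQ : K ⊆ {p : E n | Q p < 1}) :
    ∃ r : ℝ, 0 < r ∧ r < 1 ∧ ∀ x ∈ K, Q x ≤ r ^ 2 := by
  rcases K.eq_empty_or_nonempty with h | h
  · subst h
    exact ⟨1 / 2, by norm_num, by norm_num, fun x hx => absurd hx (Set.notMem_empty x)⟩
  · obtain ⟨y, hy, hmax⟩ := hK.exists_isMaxOn h Q_cont.continuousOn
    have h1 : Q y < 1 := hKQ hy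
    have h0 := Q_nonneg y
    refine ⟨(1 + Q y) / 2, by linarith, by linarith, fun x hx => ?_⟩
    have h2 : Q x ≤ Q y := hmax hx
    nlinarith [sq_nonneg (1 - Q y)]

/-- uniqueness -/
lemma eq_of {H : ℝ → E n → ℝ} {K : Set (E n)} (hH : HamOn H K) {s t : ℝ} (hs : 0 ≤ s)
    (hst : s ≤ t) (ht : t ≤ 1) {γ γ' : ℝ → E n} (h : γ s = γ' s)
    (h1 : ∀ τ ∈ Icc s t, HasDerivAt γ (XH (H τ) (γ τ)) τ)
    (h2 : ∀ τ ∈ Icc s t, HasDerivAt γ' (XH (H τ) (γ' τ)) τ) : γ t = γ' t :=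
  uni2 bd n H K hH s t hs hst ht γ γ' h h1 h2 t ⟨hst, le_rfl⟩

/-- the properties of the factors -/
def P (r ε : ℝ) (v : Homeos n) : Prop :=
  IsHamDiffeo v ∧ (∀ x, r ^ 2 < Q x → v.map x = x) ∧ ∀ x, ‖v.map x - x‖ < ε

lemma piece {H : ℝ → E n → ℝ} {K : Set (E n)} (hH : HamOn H K) {r : ℝ} (hr : ∀ x ∈ K, Q x ≤ r ^ 2)
    {C : ℝ} (hC : ∀ t ∈ Icc (0 : ℝ) 1, ∀ x, ‖XH (H t) x‖ ≤ C) {ε s t : ℝ} (hs : 0 ≤ s)
    (hst : s ≤ t) (ht : t ≤ 1) (hε : C * (t - s) < ε) {ψ : ℝ → E n → E n}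
    (hψ : ∀ (t : ℝ) (x : E n), HasDerivAt (fun s : ℝ => ψ s x) (XH (H t) (ψ t x)) t) :
    ∃ v : Homeos n, P r ε v ∧ ∀ x, v.map (ψ s x) = ψ t x := by
  obtain ⟨v, hv, hfl⟩ := tflow n H K hH s t hs hst ht
  refine ⟨v, ⟨hv, fun x hx => ?_, fun x => ?_⟩, fun x => ?_⟩
  · obtain ⟨γ, h1, h2, h3⟩ := hfl x
    have hxK : x ∉ K := fun h => absurd (hr x h) (not_le.2 hx)
    have h4 : γ t = (fun _ : ℝ => x) t := by
      refine eq_of (γ' := fun _ => x) hH hs hst ht h1 h3 fun τ _ => ?_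
      rw [FlowAux.XH_off hH.2.1 (fun y hy => hH.2.2.2 τ y hy) hxK]
      exact hasDerivAt_const τ x
    exact h2.symm.trans h4
  · obtain ⟨γ, h1, h2, h3⟩ := hfl x
    have h4 := norm_image_sub_le_of_norm_deriv_le_segment' (f := γ)
      (f' := fun τ => XH (H τ) (γ τ)) (C := C) (a := s) (b := t)
      (fun τ hτ => (h3 τ hτ).hasDerivWithinAt)
      (fun τ hτ => hC τ ⟨hs.trans hτ.1, hτ.2.le.trans ht⟩ _) t ⟨hst, le_rfl⟩
    rw [h1, h2] at h4
    exact lt_of_le_of_lt h4 hε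
  · obtain ⟨γ, h1, h2, h3⟩ := hfl (ψ s x)
    have h4 : γ t = (fun τ => ψ τ x) t :=
      eq_of (γ' := fun τ => ψ τ x) hH hs hst ht h1 h3 fun τ _ => hψ τ x
    exact h2.symm.trans h4

end SPL

open SPL in
theorem t_SPL : S_SPL := by
  intro n u hu
  obtain ⟨H, hs, ⟨K, hK, hKQ, h0⟩, ψ, ψ0, hψ, hψ1⟩ := hu
  have hH : HamOn H K := ⟨hs, hK, hKQ, h0⟩
  obtain ⟨r, hr0, hr1, hr⟩ := exists_r hK hKQ
  refine ⟨r, hr0, hr1, fun ε hε => ?_⟩
  obtain ⟨C, hC0, hC, -, -⟩ := bd n H hs K hK h0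
  obtain ⟨m, hm⟩ := exists_nat_gt (C / ε)
  have hm0 : (0 : ℝ) < m := lt_of_le_of_lt (by positivity) hm
  have key : ∀ k : ℕ, k ≤ m → ∃ l : List (Homeos n), (∀ v ∈ l, P r ε v) ∧
      ∀ x, l.prod.map x = ψ ((k : ℝ) / m) x := by
    intro k
    induction k with
    | zero =>
      intro _
      refine ⟨[], by simp, fun x => ?_⟩
      rw [Nat.cast_zero, zero_div, ψ0]
      rfl
    | succ k ih =>
      intro hk
      obtain ⟨l, hl, hlx⟩ := ih (by omega)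
      have hk' : ((k : ℝ) + 1) ≤ m := by exact_mod_cast hk
      obtain ⟨v, hv, hvx⟩ := piece hH hr hC (ε := ε) (s := (k : ℝ) / m) (t := ((k + 1 : ℕ) : ℝ) / m)
        (by positivity) (by push_cast; gcongr; linarith) (by
          rw [div_le_one hm0]
          exact_mod_cast hk) (by
          have h1 : ((k + 1 : ℕ) : ℝ) / m - (k : ℝ) / m = 1 / m := by
            push_cast
            field_simp
            ring
          rw [h1, mul_one_div, div_lt_iff₀ hm0]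
          rw [div_lt_iff₀ hε] at hm
          linarith) hψ
      refine ⟨v :: l, ?_, fun x => ?_⟩
      · intro w hw
        rcases List.mem_cons.1 hw with rfl | hw
        · exact hv
        · exact hl w hw
      · rw [List.prod_cons]
        have h1 : (v * l.prod).map x = v.map (l.prod.map x) := rfl
        rw [h1, hlx, hvx]
  obtain ⟨l, hl, hlx⟩ := key m le_rfl
  refine ⟨l, ?_, hl⟩
  refine Homeomorph.ext fun x => ?_
  have h1 : l.prod.map x = ψ 1 x := by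
    rw [hlx, div_self hm0.ne']
  exact h1.trans (hψ1 x).symm

end Pool.Agent.NH65.BG
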