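import Pool.Agent.NH65.BG.Stm

/-!
# BG-TOP (helper79): convergence of sequences of homeomorphisms
-/

set_option autoImplicit false

open Set Filter Topology MeasureTheory
open Pool.Agent.Y453.HB (E Q)
open Pool.Agent.R773.HN
open scoped Pointwise

namespace Pool.Agent.NH65.BG

namespace TOP

/-- the two components of a homeomorphism -/
noncomputable def emb {n : ℕ} (f : Homeos n) : C(E n, E n) × C(E n, E n) :=
  ((ContinuousMap.mk f.map f.homeo.continuous : C(E n, E n)),
    (ContinuousMap.mk f.homeo.symm f.homeo.symm.continuous : C(E n, E n)))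

theorem ind (n : ℕ) : Topology.IsInducing (emb (n := n)) := ⟨rfl⟩

end TOP

/-- BG-TOP -/
theorem t_TOP : S_TOP := by
  intro n u g
  rw [(TOP.ind n).tendsto_nhds_iff, Prod.tendsto_iff,
    ContinuousMap.tendsto_iff_forall_isCompact_tendstoUniformlyOn,
    ContinuousMap.tendsto_iff_forall_isCompact_tendstoUniformlyOn]
  constructor
  · intro h K hK
    exact ⟨h.1 K hK, h.2 K hK⟩
  · intro h
    exact ⟨fun K hK => (h K hK).1, fun K hK => (h K hK).2⟩

end Pool.Agent.NH65.BG
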