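import Pool.Agent.NH65.BG.Stm2
import Pool.Agent.NH65.BG.Fin
import Pool.Agent.NH65.BG.POL
import Pool.Agent.NH65.BG.TOP
import Pool.Agent.NH65.BG.NBH
import Pool.Agent.NH65.BG.GA
import Pool.Agent.NH65.BG.GB
import Pool.Agent.NH65.BG.GC
import Pool.Agent.NH65.BG.SPL
import Pool.Agent.NH65.BG.DUD
import Pool.Agent.NH65.BG.FREE

/-!
# Homomorphisms from the Hamiltonian homeomorphisms of the ball to free groups
-/

set_option autoImplicit false

open Set Filter Topology MeasureTheory
open Pool.Agent.R773.HN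

namespace Pool.Agent.NH65.BG

theorem hom_eq_one {n : ℕ} {A : Type} [Group A] {ℓ : A → ℕ} (hℓ : IsDudleyLength ℓ) (c : HamHomeo n →* A) :
    c = 1 := by
  have := (t_POL n).1
  have := (t_POL n).2
  have h : c.ker = ⊤ := by
    apply top_of_open t_POL t_NBH (t_GA t_POL) (t_GC t_TOP) t_SPL
    intro r hr hr1
    obtain ⟨L, hL⟩ := t_GA t_POL n r
    have hle : L ≤ HamHomeo n := by
      intro f hf
      apply t_GB t_POL t_TOP n r hr hr1
      rw [← hL]
      exact hf
    have hc : IsClosed (L : Set (Homeos n)) := by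
      rw [hL]
      exact isClosed_closure
    have : PolishSpace L := hc.polishSpace
    obtain ⟨V, hV, h1⟩ := t_DUD L A ℓ hℓ (c.comp (Subgroup.inclusion hle))
    rw [nhds_subtype_eq_comap] at hV
    obtain ⟨V', hV', h2⟩ := hV
    refine ⟨V', hV', fun f hf hfG => ?_⟩
    have hfL : f ∈ L := by
      rw [← SetLike.mem_coe, hL]
      exact hfG
    have h3 : (⟨f, hfL⟩ : L) ∈ V := h2 hf
    exact ⟨Subgroup.inclusion hle ⟨f, hfL⟩, h1 _ h3, rfl⟩
  ext g
  have : g ∈ c.ker := by rw [h]; trivial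
  exact this

theorem dudley_int : IsDudleyLength (fun a : Multiplicative ℤ => a.toAdd.natAbs) where
  mul a b := by
    show (a.toAdd + b.toAdd).natAbs ≤ _
    exact Int.natAbs_add_le _ _
  inv a := by
    show (-a.toAdd).natAbs = _
    exact Int.natAbs_neg _
  zero a := by
    rw [Int.natAbs_eq_zero]
    exact Iff.rfl
  pow a ha m hm := by
    have h1 : (a ^ m).toAdd.natAbs = m * a.toAdd.natAbs := by
      show ((m : ℤ) * a.toAdd).natAbs = _ 
      rw [Int.natAbs_mul, Int.natAbs_natCast]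
    have h2 : 1 ≤ a.toAdd.natAbs := by
      rw [Nat.one_le_iff_ne_zero, Ne, Int.natAbs_eq_zero]
      exact ha
    show m ≤ (a ^ m).toAdd.natAbs ∧ a.toAdd.natAbs ≤ (a ^ m).toAdd.natAbs
    rw [h1]
    constructor <;> nlinarith

theorem hom_free {n : ℕ} (A : Type) [Group A] [IsFreeGroup A] (c : HamHomeo n →* A) : c = 1 :=
  t_FREE (HamHomeo n) (fun c => hom_eq_one dudley_int c) A c

/-- towers -/
theorem hom_tower {n : ℕ} {A : Type} [Group A] (k : ℕ) (B : ℕ → Subgroup A) (h0 : B 0 = ⊤) (hk : B k = ⊥)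
    (h : ∀ i < k, ∃ (F : Type) (_ : Group F) (ℓ : F → ℕ) (f : B i →* F), IsDudleyLength ℓ ∧
      ∀ x : B i, f x = 1 → x.1 ∈ B (i + 1)) (c : HamHomeo n →* A) : c = 1 := by
  have key : ∀ i ≤ k, ∀ g, c g ∈ B i := by
    intro i
    induction i with
    | zero => intro _ g; rw [h0]; trivial
    | succ i ih =>
      intro hi g
      obtain ⟨F, _, ℓ, f, hℓ, hf⟩ := h i (by omega)
      have h1 := ih (by omega)
      have h2 := hom_eq_one hℓ (f.comp (c.codRestrict (B i) h1))
      have h3 : f (c.codRestrict (B i) h1 g) = 1 := DFunLike.congr_fun h2 g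
      exact hf _ h3
  ext g
  have := key k le_rfl g
  rw [hk, Subgroup.mem_bot] at this
  exact this

end Pool.Agent.NH65.BG
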