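import Pool.Agent.NH65.BG.Stm3

/-!
# The set of the hameomorphisms is analytic
-/

set_option autoImplicit false

open Set Filter Topology MeasureTheory
open Pool.Agent.Y453.HB (E Q XH)
open Pool.Agent.R773.HN

namespace Pool.Agent.NH65.BG

namespace HAM

theorem Cl.mono {n : ℕ} {r : ℝ} {a b : HI n r} {ε δ : ℝ} (h : Cl a b ε) (hδ : ε ≤ δ) : Cl a b δ :=
  ⟨h.1.trans hδ, fun t ht x => (h.2.1 t ht x).trans hδ, fun t ht x y he => (h.2.2 t ht x y he).trans hδ⟩

theorem eq_zero {n : ℕ} {v : E n} (C : ℝ) (h : ∀ m : ℕ, ‖v‖ ≤ C * (1 / 2) ^ m) : v = 0 := by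
  have h1 : Tendsto (fun m : ℕ => C * (1 / 2 : ℝ) ^ m) atTop (𝓝 (C * 0)) :=
    (tendsto_pow_atTop_nhds_zero_of_lt_one (by norm_num) (by norm_num)).const_mul C
  rw [mul_zero] at h1
  exact norm_le_zero_iff.1 (ge_of_tendsto' h1 h)

theorem small {C ε : ℝ} (hε : 0 < ε) : ∀ᶠ m : ℕ in atTop, C * (1 / 2 : ℝ) ^ m < ε := by
  have h1 : Tendsto (fun m : ℕ => C * (1 / 2 : ℝ) ^ m) atTop (𝓝 (C * 0)) :=
    (tendsto_pow_atTop_nhds_zero_of_lt_one (by norm_num) (by norm_num)).const_mul C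
  rw [mul_zero] at h1
  exact h1.eventually_lt_const hε

theorem one_mem : (1 : ℝ) ∈ Icc (0 : ℝ) 1 := ⟨zero_le_one, le_rfl⟩

theorem map_inv {n : ℕ} (f : Homeos n) (z : E n) : f.map ((f⁻¹ : Homeos n).map z) = z :=
  f.homeo.apply_symm_apply z

theorem ext {n : ℕ} {f g : Homeos n} (h : ∀ x, f.map x = g.map x) : f = g :=
  Homeomorph.ext (h := f.homeo) (h' := g.homeo) h

section

variable {n : ℕ} {r : ℝ}

theorem cl_self (h1 : ∀ (a : HI n r) (ε : ℝ), 0 < ε → ∃ b : HI n r, Cl a b ε)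
    (h2 : ∀ (a b c : HI n r) (ε δ : ℝ), (Cl a b ε → Cl b a ε) ∧ (Cl a b ε → Cl b c δ → Cl a c (ε + δ)))
    (a : HI n r) {ε : ℝ} (hε : 0 < ε) : Cl a a ε := by
  obtain ⟨b, hb⟩ := h1 a (ε / 2) (by positivity)
  have h3 := (h2 a b a (ε / 2) (ε / 2)).2 hb ((h2 a b a (ε / 2) (ε / 2)).1 hb)
  rwa [add_halves] at h3

theorem cl_tail (h1 : ∀ (a : HI n r) (ε : ℝ), 0 < ε → ∃ b : HI n r, Cl a b ε)
    (h2 : ∀ (a b c : HI n r) (ε δ : ℝ), (Cl a b ε → Cl b a ε) ∧ (Cl a b ε → Cl b c δ → Cl a c (ε + δ)))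
    (a : ℕ → HI n r) (ha : ∀ i, Cl (a i) (a (i + 1)) ((1 / 2) ^ i)) :
    ∀ k i, Cl (a i) (a (i + k)) (4 * (1 / 2) ^ i) := by
  intro k
  induction k with
  | zero =>
    intro i
    exact cl_self h1 h2 (a i) (by positivity)
  | succ k ih =>
    intro i
    have h3 := ih (i + 1)
    have h4 := (h2 (a i) (a (i + 1)) (a (i + 1 + k)) _ _).2 (ha i) h3
    have e1 : i + 1 + k = i + (k + 1) := by ring
    rw [e1] at h4
    refine Cl.mono h4 ?_
    rw [pow_succ]
    have : (0 : ℝ) < (1 / 2) ^ i := by positivity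
    linarith

end

end HAM

open HAM in
theorem t_HAM (h1 : S_HSEP) (h2 : S_HTRI) (h3 : S_HLIM) (h4 : S_HCAU) (h5 : S_TOP) (h6 : S_POL) :
    S_HAM := by
  intro n r hr0 hr1
  classical
  have := (h6 n).1
  obtain ⟨d, hd⟩ := h1 n r hr0 hr1
  have h2' := h2 n r hr0 hr1
  have h1' : ∀ (a : HI n r) (ε : ℝ), 0 < ε → ∃ b : HI n r, Cl a b ε := fun a ε hε => by
    obtain ⟨k, hk⟩ := hd a ε hε
    exact ⟨d k, hk⟩
  -- the time one maps are homeomorphisms
  have hom : ∀ a : HI n r, ∃ g : Homeos n, ∀ x, a.ψ 1 x = g.map x := by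
    intro a
    obtain ⟨Φ, hΦ, -⟩ := h3 n r hr0 hr1 (fun _ => a) (fun i => cl_self h1' h2' a (by positivity))
    refine ⟨Φ 1, fun x => sub_eq_zero.1 (eq_zero 2 fun m => hΦ m 1 one_mem x)⟩
  set F : Set (ℕ → ℕ) := {s | ∀ i, Cl (d (s i)) (d (s (i + 1))) ((1 / 2) ^ i)} with hF
  have hFc : IsClosed F := by
    have e1 : F = ⋂ i : ℕ, (fun s : ℕ → ℕ => (s i, s (i + 1))) ⁻¹'
        {p : ℕ × ℕ | Cl (d p.1) (d p.2) ((1 / 2) ^ i)} := by
      ext s
      simp [hF]
    rw [e1]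
    refine isClosed_iInter fun i => (isClosed_discrete _).preimage ?_
    exact (continuous_apply i).prodMk (continuous_apply (i + 1))
  have hlim : ∀ s ∈ F, ∃ Φ : ℝ → Homeos n,
      (∀ i, ∀ t ∈ Icc (0 : ℝ) 1, ∀ x, ‖(d (s i)).ψ t x - (Φ t).map x‖ ≤ 2 * (1 / 2) ^ i) ∧
      ∀ i, ∀ t ∈ Icc (0 : ℝ) 1, ∀ x y, (d (s i)).ψ t x = (Φ t).map y → ‖x - y‖ ≤ 2 * (1 / 2) ^ i :=
    fun s hs => h3 n r hr0 hr1 (fun i => d (s i)) hs
  choose! Ψ hΨ1 hΨ2 using hlim
  set L : (ℕ → ℕ) → Homeos n := fun s => Ψ s 1 with hL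
  have hA : ∀ s ∈ F, ∀ i x, ‖(d (s i)).ψ 1 x - (L s).map x‖ ≤ 2 * (1 / 2) ^ i :=
    fun s hs i x => hΨ1 s hs i 1 one_mem x
  have hB : ∀ s ∈ F, ∀ i x y, (d (s i)).ψ 1 x = (L s).map y → ‖x - y‖ ≤ 2 * (1 / 2) ^ i :=
    fun s hs i x y => hΨ2 s hs i 1 one_mem x y
  have hcmp : ∀ s ∈ F, ∀ s' ∈ F, ∀ i, s i = s' i → ∀ x,
      ‖(L s).map x - (L s').map x‖ ≤ 4 * (1 / 2) ^ i ∧
      ‖((L s)⁻¹ : Homeos n).map x - ((L s')⁻¹ : Homeos n).map x‖ ≤ 4 * (1 / 2) ^ i := by
    intro s hs s' hs' i hi x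
    constructor
    · have a1 := hA s hs i x
      have a2 := hA s' hs' i x
      rw [← hi] at a2
      have e : (L s).map x - (L s').map x = -((d (s i)).ψ 1 x - (L s).map x) +
          ((d (s i)).ψ 1 x - (L s').map x) := by abel
      rw [e]
      refine (norm_add_le _ _).trans ?_
      rw [norm_neg]
      linarith
    · obtain ⟨g, hg⟩ := hom (d (s i))
      have e0 : (d (s i)).ψ 1 ((g⁻¹ : Homeos n).map x) = x := by rw [hg, map_inv]
      have a1 := hB s hs i ((g⁻¹ : Homeos n).map x) (((L s)⁻¹ : Homeos n).map x)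
        (by rw [e0, map_inv])
      have a2 := hB s' hs' i ((g⁻¹ : Homeos n).map x) (((L s')⁻¹ : Homeos n).map x)
        (by rw [← hi, e0, map_inv])
      have e : ((L s)⁻¹ : Homeos n).map x - ((L s')⁻¹ : Homeos n).map x =
          -((g⁻¹ : Homeos n).map x - ((L s)⁻¹ : Homeos n).map x) +
          ((g⁻¹ : Homeos n).map x - ((L s')⁻¹ : Homeos n).map x) := by abel
      rw [e]
      refine (norm_add_le _ _).trans ?_
      rw [norm_neg]
      linarith
  have hcont : ContinuousOn L F := by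
    rw [continuousOn_iff_continuous_domRestrict, continuous_iff_seqContinuous]
    intro u s hus
    have hco : ∀ i : ℕ, ∀ᶠ k in atTop, (u k : ℕ → ℕ) i = (s : ℕ → ℕ) i := by
      intro i
      have h7 : Tendsto (fun k => (u k : ℕ → ℕ) i) atTop (𝓝 ((s : ℕ → ℕ) i)) :=
        ((continuous_apply i).comp continuous_subtype_val).continuousAt.tendsto.comp hus
      rw [nhds_discrete, tendsto_pure] at h7
      exact h7
    have hunif : ∀ ε : ℝ, 0 < ε → ∀ᶠ k in atTop, ∀ x,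
        ‖(L (s : ℕ → ℕ)).map x - (L (u k : ℕ → ℕ)).map x‖ < ε ∧
        ‖((L (s : ℕ → ℕ))⁻¹ : Homeos n).map x - ((L (u k : ℕ → ℕ))⁻¹ : Homeos n).map x‖ < ε := by
      intro ε hε
      obtain ⟨i, hi⟩ := (small (C := 4) hε).exists
      filter_upwards [hco i] with k hk x
      have := hcmp s s.2 (u k) (u k).2 i hk.symm x
      exact ⟨this.1.trans_lt hi, this.2.trans_lt hi⟩
    show Tendsto (fun k => L (u k : ℕ → ℕ)) atTop (𝓝 (L (s : ℕ → ℕ)))
    rw [h5]
    intro K _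
    constructor
    · rw [Metric.tendstoUniformlyOn_iff]
      intro ε hε
      filter_upwards [hunif ε hε] with k hk x _
      rw [dist_eq_norm]
      exact (hk x).1
    · rw [Metric.tendstoUniformlyOn_iff]
      intro ε hε
      filter_upwards [hunif ε hε] with k hk x _
      rw [dist_eq_norm]
      exact (hk x).2
  have himg : {φ : Homeos n | IsHameo r φ} = L '' F := by
    ext φ
    constructor
    · rintro ⟨a, hC, Φ, hU, hΦ⟩
      have h7 := h4 n r hr0 hr1 a hC Φ hU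
      have h8 : ∀ m : ℕ, ∃ N : ℕ, ∀ i j : ℕ, N ≤ i → N ≤ j → Cl (a i) (a j) ((1 / 2) ^ m / 4) :=
        fun m => h7 _ (by positivity)
      choose N hN using h8
      have h9 : ∀ m : ℕ, ∃ k, Cl (a (N m)) (d k) ((1 / 2) ^ m / 4) := fun m => hd _ _ (by positivity)
      choose k hk using h9
      have hkF : k ∈ F := by
        intro m
        have c1 := (h2' (a (N m)) (d (k m)) (d (k m)) ((1 / 2) ^ m / 4) 0).1 (hk m)
        have c2 := hN m (N m) (max (N m) (N (m + 1))) le_rfl (le_max_left _ _)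
        have c3 := hN (m + 1) (max (N m) (N (m + 1))) (N (m + 1)) (le_max_right _ _) le_rfl
        have c4 := hk (m + 1)
        have d1 := (h2' _ _ _ _ _).2 c1 c2
        have d2 := (h2' _ _ _ _ _).2 d1 c3
        have d3 := (h2' _ _ _ _ _).2 d2 c4
        refine Cl.mono d3 ?_
        rw [pow_succ]
        have : (0 : ℝ) < (1 / 2) ^ m := by positivity
        linarith
      refine ⟨k, hkF, ext fun x => sub_eq_zero.1 (eq_zero 3 fun m => ?_)⟩
      have b1 := hA k hkF m x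
      have b2 := (hk m).2.1 1 one_mem x
      have b3 : ‖(a (N m)).ψ 1 x - φ.map x‖ ≤ (1 / 2) ^ m / 4 := by
        have t1 : Tendsto (fun j => (a j).ψ 1 x) atTop (𝓝 (φ.map x)) := by
          have := hU.tendsto_at (x := ((1 : ℝ), x)) ⟨one_mem, mem_univ _⟩
          rw [← hΦ]
          exact this
        have t2 := (tendsto_const_nhds (x := (a (N m)).ψ 1 x) (f := atTop)).sub t1
        refine le_of_tendsto t2.norm ?_
        filter_upwards [eventually_ge_atTop (N m)] with j hj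
        exact (hN m (N m) j le_rfl hj).2.1 1 one_mem x
      have e : (L k).map x - φ.map x = -((d (k m)).ψ 1 x - (L k).map x) +
          -((a (N m)).ψ 1 x - (d (k m)).ψ 1 x) + ((a (N m)).ψ 1 x - φ.map x) := by abel
      rw [e]
      refine (norm_add₃_le).trans ?_
      rw [norm_neg, norm_neg]
      have : (0 : ℝ) < (1 / 2) ^ m := by positivity
      linarith
    · rintro ⟨s, hs, rfl⟩
      refine ⟨fun i => d (s i), ?_, Ψ s, ?_, rfl⟩
      · intro ε hε
        obtain ⟨N, hN⟩ := (small (C := 4) hε).exists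
        refine ⟨N, fun i j hi hj => ?_⟩
        have key : ∀ i j, N ≤ i → i ≤ j → Cl (d (s i)) (d (s j)) (4 * (1 / 2) ^ N) := by
          intro i j hi hij
          obtain ⟨l, rfl⟩ := Nat.exists_eq_add_of_le hij
          refine Cl.mono (cl_tail h1' h2' (fun i => d (s i)) hs l i) ?_
          have : ((1 / 2 : ℝ)) ^ i ≤ (1 / 2) ^ N :=
            pow_le_pow_of_le_one (by norm_num) (by norm_num) hi
          linarith
        rcases le_total i j with h | h
        · exact (key i j hi h).1.trans_lt hN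
        · exact ((h2' _ _ (d (s i)) _ 0).1 (key j i hj h)).1.trans_lt hN
      · rw [Metric.tendstoUniformlyOn_iff]
        intro ε hε
        filter_upwards [small (C := 2) hε] with i hi p hp
        rw [dist_comm, dist_eq_norm]
        exact (hΨ1 s hs i p.1 hp.1 p.2).trans_lt hi
  rw [himg]
  exact hFc.analyticSet.image_of_continuousOn hcont

end Pool.Agent.NH65.BG
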