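import Pool.Agent.NH65.BG.Stm3
import Pool.Agent.Y453.HB.Tri
import Pool.Agent.R773.HN.Flow
import Pool.Agent.R773.HN.Uni2
import Pool.Agent.R773.HN.Bd

/-!
# Project BG, part BG-HCAU: sequences defining hameomorphisms are Cauchy in the sense of `Cl`
-/

set_option autoImplicit false

open Set Filter Topology MeasureTheory
open Pool.Agent.Y453.HB (E Q XH Q_nonneg Q_cont norm_le)
open Pool.Agent.R773.HN

namespace Pool.Agent.NH65.BG

namespace HCAU

variable {n : ℕ} {r : ℝ}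

/-- the closed ball -/
def KB (n : ℕ) (r : ℝ) : Set (E n) := {x | Q x ≤ r ^ 2}

lemma norm_le_of_mem (hr0 : 0 < r) {x : E n} (hx : x ∈ KB n r) : ‖x‖ ≤ r := by
  exact (norm_le x).trans (Real.sqrt_le_iff.2 ⟨hr0.le, hx⟩)

lemma KB_compact (hr0 : 0 < r) : IsCompact (KB n r) := by
  refine Metric.isCompact_of_isClosed_isBounded (isClosed_le Q_cont continuous_const) ?_
  refine (Metric.isBounded_closedBall (x := (0 : E n)) (r := r)).subset fun x hx => ?_
  rw [mem_closedBall_zero_iff]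
  exact norm_le_of_mem hr0 hx

lemma off (a : HI n r) (t : ℝ) (x : E n) (hx : x ∉ KB n r) : a.H t x = 0 :=
  a.supp t x (not_le.1 hx)

lemma hamOn (hr0 : 0 < r) (hr1 : r < 1) (a : HI n r) : HamOn a.H (KB n r) := by
  refine ⟨a.smooth, KB_compact hr0, fun x hx => ?_, fun t x hx => off a t x hx⟩
  have h1 : Q x ≤ r ^ 2 := hx
  show Q x < 1
  nlinarith

/-- the flow is the identity off the ball -/
lemma ident (hr0 : 0 < r) (hr1 : r < 1) (a : HI n r) {t : ℝ} (ht : t ∈ Icc (0 : ℝ) 1) {x : E n}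
    (hx : x ∉ KB n r) : a.ψ t x = x := by
  have hH := hamOn hr0 hr1 a
  exact uni2 bd n a.H (KB n r) hH 0 1 le_rfl zero_le_one le_rfl (fun τ => a.ψ τ x) (fun _ => x)
    (a.zero x) (fun τ _ => a.ode τ x) (fun τ _ => by
      rw [FlowAux.XH_off hH.2.1 (fun y hy => hH.2.2.2 τ y hy) hx]
      exact hasDerivAt_const τ x) t ht

/-- the flow is jointly continuous -/
lemma cont (hr0 : 0 < r) (a : HI n r) :
    ContinuousOn (fun p : ℝ × E n => a.ψ p.1 p.2) (Icc (0 : ℝ) 1 ×ˢ univ) := by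
  obtain ⟨C, hC0, hC, hL, -⟩ := bd n a.H a.smooth (KB n r) (KB_compact hr0) (fun t x hx => off a t x hx)
  have h1 : ∀ x : E n, ∀ s ∈ Icc (0 : ℝ) 1, ∀ t ∈ Icc (0 : ℝ) 1, ‖a.ψ t x - a.ψ s x‖ ≤ C * ‖t - s‖ := by
    intro x s hs t ht
    exact Convex.norm_image_sub_le_of_norm_hasDerivWithin_le (f := fun τ => a.ψ τ x)
      (f' := fun τ => XH (a.H τ) (a.ψ τ x)) (s := Icc (0 : ℝ) 1)
      (fun τ _ => (a.ode τ x).hasDerivWithinAt) (fun τ hτ => hC τ hτ _) (convex_Icc 0 1) hs ht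
  have h2 : ∀ x y : E n, ∀ t ∈ Icc (0 : ℝ) 1, ‖a.ψ t x - a.ψ t y‖ ≤ Real.exp C * ‖x - y‖ := by
    intro x y t ht
    have h3 := dist_le_of_trajectories_ODE_of_mem (v := fun τ => XH (a.H τ)) (s := fun _ => univ)
      (K := Real.toNNReal C) (f := fun τ => a.ψ τ x) (g := fun τ => a.ψ τ y) (a := 0) (b := 1)
      (δ := ‖x - y‖) (fun τ hτ => LipschitzOnWith.of_dist_le_mul fun u _ w _ => by
        rw [dist_eq_norm, dist_eq_norm, Real.coe_toNNReal C hC0]
        exact hL τ ⟨hτ.1, hτ.2.le⟩ u w)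
      (fun τ _ => (a.ode τ x).continuousAt.continuousWithinAt)
      (fun τ _ => (a.ode τ x).hasDerivWithinAt) (fun _ _ => trivial)
      (fun τ _ => (a.ode τ y).continuousAt.continuousWithinAt)
      (fun τ _ => (a.ode τ y).hasDerivWithinAt) (fun _ _ => trivial)
      (by rw [a.zero, a.zero, dist_eq_norm]) t ht
    rw [dist_eq_norm, Real.coe_toNNReal C hC0, sub_zero] at h3
    refine h3.trans ?_
    rw [mul_comm]
    refine mul_le_mul_of_nonneg_right (Real.exp_le_exp.2 ?_) (norm_nonneg _)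
    nlinarith [ht.1, ht.2]
  have h4 : LipschitzOnWith (Real.toNNReal (C + Real.exp C)) (fun p : ℝ × E n => a.ψ p.1 p.2)
      (Icc (0 : ℝ) 1 ×ˢ univ) := by
    refine LipschitzOnWith.of_dist_le_mul fun p hp q hq => ?_
    rw [Real.coe_toNNReal _ (by positivity), dist_eq_norm]
    have e1 := h1 p.2 q.1 hq.1 p.1 hp.1
    have e2 := h2 p.2 q.2 q.1 hq.1
    have e3 : ‖p.1 - q.1‖ ≤ dist p q := by
      rw [dist_eq_norm]
      exact norm_fst_le (p - q)
    have e4 : ‖p.2 - q.2‖ ≤ dist p q := by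
      rw [dist_eq_norm]
      exact norm_snd_le (p - q)
    calc ‖a.ψ p.1 p.2 - a.ψ q.1 q.2‖
        = ‖(a.ψ p.1 p.2 - a.ψ q.1 p.2) + (a.ψ q.1 p.2 - a.ψ q.1 q.2)‖ := by rw [sub_add_sub_cancel]
      _ ≤ ‖a.ψ p.1 p.2 - a.ψ q.1 p.2‖ + ‖a.ψ q.1 p.2 - a.ψ q.1 q.2‖ := norm_add_le _ _
      _ ≤ C * ‖p.1 - q.1‖ + Real.exp C * ‖p.2 - q.2‖ := add_le_add e1 e2
      _ ≤ C * dist p q + Real.exp C * dist p q :=
        add_le_add (mul_le_mul_of_nonneg_left e3 hC0)
          (mul_le_mul_of_nonneg_left e4 (Real.exp_pos C).le)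
      _ = (C + Real.exp C) * dist p q := by ring
  exact h4.continuousOn

/-- equicontinuity of the inverses of a continuous isotopy of injections which is the identity off a ball -/
lemma equi (hr0 : 0 < r) (hr1 : r < 1) {F : ℝ → E n → E n}
    (hF : ContinuousOn (fun p : ℝ × E n => F p.1 p.2) (Icc (0 : ℝ) 1 ×ˢ univ))
    (hid : ∀ t ∈ Icc (0 : ℝ) 1, ∀ x, x ∉ KB n r → F t x = x)
    (hinj : ∀ t ∈ Icc (0 : ℝ) 1, ∀ x y, F t x = F t y → x = y) {ε : ℝ} (hε : 0 < ε) :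
    ∃ δ : ℝ, 0 < δ ∧ ∀ t ∈ Icc (0 : ℝ) 1, ∀ x y, ‖F t x - F t y‖ ≤ δ → ‖x - y‖ ≤ ε := by
  obtain ⟨M, hM⟩ := (isCompact_Icc.prod (KB_compact (n := n) hr0)).exists_bound_of_continuousOn
    (hF.mono (prod_mono_right (subset_univ _)))
  set R : ℝ := 1 + ε + |M| with hR
  have hMR : ∀ t ∈ Icc (0 : ℝ) 1, ∀ x ∈ KB n r, ‖F t x‖ ≤ |M| := fun t ht x hx =>
    (hM (t, x) ⟨ht, hx⟩).trans (le_abs_self M)
  set S : Set (ℝ × E n × E n) :=
    (Icc (0 : ℝ) 1 ×ˢ (Metric.closedBall (0 : E n) R ×ˢ Metric.closedBall (0 : E n) R)) ∩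
      {p | ε ≤ ‖p.2.1 - p.2.2‖} with hS
  have hSc : IsCompact S := by
    refine (isCompact_Icc.prod ((isCompact_closedBall _ _).prod (isCompact_closedBall _ _))).inter_right ?_
    exact isClosed_le continuous_const (by fun_prop)
  have hg : ContinuousOn (fun p : ℝ × E n × E n => ‖F p.1 p.2.1 - F p.1 p.2.2‖) S := by
    refine ContinuousOn.norm (ContinuousOn.sub ?_ ?_)
    · exact hF.comp (f := fun p : ℝ × E n × E n => (p.1, p.2.1)) (by fun_prop)
        (fun p hp => ⟨hp.1.1, trivial⟩)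
    · exact hF.comp (f := fun p : ℝ × E n × E n => (p.1, p.2.2)) (by fun_prop)
        (fun p hp => ⟨hp.1.1, trivial⟩)
  obtain ⟨δ, hδ, hδS⟩ : ∃ δ : ℝ, 0 < δ ∧ ∀ p ∈ S, δ ≤ ‖F p.1 p.2.1 - F p.1 p.2.2‖ := by
    rcases S.eq_empty_or_nonempty with h | h
    · exact ⟨1, one_pos, fun p hp => absurd hp (by rw [h]; exact notMem_empty p)⟩
    · obtain ⟨q, hq, hmin⟩ := hSc.exists_isMinOn h hg
      refine ⟨_, ?_, fun p hp => hmin hp⟩
      rw [norm_pos_iff, sub_ne_zero]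
      intro he
      have h1 := hinj q.1 hq.1.1 _ _ he
      have h2 : ε ≤ ‖q.2.1 - q.2.2‖ := hq.2
      rw [h1, sub_self, norm_zero] at h2
      linarith
  refine ⟨min (δ / 2) ε, by positivity, fun t ht x y hxy => ?_⟩
  by_contra hlt
  rw [not_le] at hlt
  have hxy1 : ‖F t x - F t y‖ ≤ δ / 2 := hxy.trans (min_le_left _ _)
  have hxy2 : ‖F t x - F t y‖ ≤ ε := hxy.trans (min_le_right _ _)
  -- a point whose image is close to the image of a point of the ball is bounded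
  have key : ∀ u w : E n, u ∈ KB n r → ‖F t w - F t u‖ ≤ ε → ‖w‖ ≤ R := by
    intro u w hu huw
    by_cases hw : w ∈ KB n r
    · have := norm_le_of_mem hr0 hw
      have h5 := abs_nonneg M
      rw [hR]
      linarith
    · rw [hid t ht w hw] at huw
      have h6 := hMR t ht u hu
      have h7 : ‖w‖ ≤ ‖w - F t u‖ + ‖F t u‖ := by
        have := norm_add_le (w - F t u) (F t u)
        rwa [sub_add_cancel] at this
      rw [hR]
      linarith
  have hball : ∀ u : E n, u ∈ KB n r → ‖u‖ ≤ R := by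
    intro u hu
    have := norm_le_of_mem hr0 hu
    have h5 := abs_nonneg M
    rw [hR]
    linarith
  have hmem : ‖x‖ ≤ R ∧ ‖y‖ ≤ R := by
    by_cases hx : x ∈ KB n r
    · refine ⟨hball x hx, key x y hx ?_⟩
      rwa [norm_sub_rev]
    · by_cases hy : y ∈ KB n r
      · exact ⟨key y x hy hxy2, hball y hy⟩
      · exfalso
        rw [hid t ht x hx, hid t ht y hy] at hxy2
        linarith
  have hp : ((t, x, y) : ℝ × E n × E n) ∈ S :=
    ⟨⟨ht, mem_closedBall_zero_iff.2 hmem.1, mem_closedBall_zero_iff.2 hmem.2⟩, hlt.le⟩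
  have h8 : δ ≤ ‖F t x - F t y‖ := hδS _ hp
  linarith

end HCAU

open HCAU in
/-- a sequence as in the definition of hameomorphisms is Cauchy in the sense of `Cl` -/
theorem t_HCAU : S_HCAU := by
  intro n r hr0 hr1 a hcau Φ hlim ε hε
  have hF : ContinuousOn (fun p : ℝ × E n => (Φ p.1).map p.2) (Icc (0 : ℝ) 1 ×ˢ univ) :=
    hlim.continuousOn (Eventually.frequently (Eventually.of_forall fun i => cont hr0 (a i)))
  have hid : ∀ t ∈ Icc (0 : ℝ) 1, ∀ x, x ∉ KB n r → (Φ t).map x = x := by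
    intro t ht x hx
    have h1 : Tendsto (fun i => (a i).ψ t x) atTop (𝓝 ((Φ t).map x)) :=
      hlim.tendsto_at (x := ((t, x) : ℝ × E n)) ⟨ht, trivial⟩
    have h2 : Tendsto (fun i => (a i).ψ t x) atTop (𝓝 x) := by
      have : (fun i => (a i).ψ t x) = fun _ => x := funext fun i => ident hr0 hr1 (a i) ht hx
      rw [this]
      exact tendsto_const_nhds
    exact tendsto_nhds_unique h1 h2
  obtain ⟨δ, hδ, hδF⟩ := equi (F := fun t x => (Φ t).map x) hr0 hr1 hF hid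
    (fun t _ x y h => (Φ t).homeo.injective h) hε
  obtain ⟨N1, hN1⟩ := hcau ε hε
  have hm : 0 < min (ε / 2) (δ / 2) := by positivity
  obtain ⟨N2, hN2⟩ := eventually_atTop.1 (Metric.tendstoUniformlyOn_iff.1 hlim _ hm)
  have hN2' : ∀ i, N2 ≤ i → ∀ t ∈ Icc (0 : ℝ) 1, ∀ x,
      ‖(Φ t).map x - (a i).ψ t x‖ < min (ε / 2) (δ / 2) := by
    intro i hi t ht x
    have := hN2 i hi ((t, x) : ℝ × E n) ⟨ht, trivial⟩
    rwa [dist_eq_norm] at this
  refine ⟨max N1 N2, fun i j hi hj => ⟨(hN1 i j ((le_max_left _ _).trans hi)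
    ((le_max_left _ _).trans hj)).le, fun t ht x => ?_, fun t ht x y hxy => ?_⟩⟩
  · have h1 := hN2' i ((le_max_right _ _).trans hi) t ht x
    have h2 := hN2' j ((le_max_right _ _).trans hj) t ht x
    have h3 := min_le_left (ε / 2) (δ / 2)
    calc ‖(a i).ψ t x - (a j).ψ t x‖
        = ‖((Φ t).map x - (a j).ψ t x) - ((Φ t).map x - (a i).ψ t x)‖ := by
          congr 1
          abel
      _ ≤ ‖(Φ t).map x - (a j).ψ t x‖ + ‖(Φ t).map x - (a i).ψ t x‖ := norm_sub_le _ _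
      _ ≤ ε := by linarith
  · have h1 := hN2' i ((le_max_right _ _).trans hi) t ht x
    have h2 := hN2' j ((le_max_right _ _).trans hj) t ht y
    have h3 := min_le_right (ε / 2) (δ / 2)
    refine hδF t ht x y ?_
    calc ‖(Φ t).map x - (Φ t).map y‖
        = ‖((Φ t).map x - (a i).ψ t x) - ((Φ t).map y - (a j).ψ t y)‖ := by
          rw [hxy]
          congr 1
          abel
      _ ≤ ‖(Φ t).map x - (a i).ψ t x‖ + ‖(Φ t).map y - (a j).ψ t y‖ := norm_sub_le _ _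
      _ ≤ δ := by linarith

end Pool.Agent.NH65.BG
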