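import Pool.Agent.NH65.BG.Stm3
import Pool.Agent.R773.HN.Tflow
import Pool.Agent.R773.HN.Uni2
import Pool.Agent.R773.HN.Bd

/-!
# Project BG, part BG-HLIM: limits of fast Cauchy sequences
-/

set_option autoImplicit false

open Set Filter Topology MeasureTheory
open Pool.Agent.Y453.HB (E Q XH)
open Pool.Agent.R773.HN

namespace Pool.Agent.NH65.BG

namespace HLIM

lemma tends (C : ℝ) : Tendsto (fun i : ℕ => C * (1 / 2 : ℝ) ^ i) atTop (𝓝 0) := by
  have h := (tendsto_pow_atTop_nhds_zero_of_lt_one (r := (1 / 2 : ℝ)) (by norm_num)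
    (by norm_num)).const_mul C
  rwa [mul_zero] at h

/-- uniform limits of fast Cauchy sequences of maps -/
lemma lim {X : Type*} [NormedAddCommGroup X] [CompleteSpace X] (u : ℕ → X → X)
    (hu : ∀ i x, ‖u i x - u (i + 1) x‖ ≤ (1 / 2 : ℝ) ^ i) (hc : ∀ i, Continuous (u i)) :
    ∃ φ : X → X, Continuous φ ∧ (∀ i x, ‖u i x - φ x‖ ≤ 2 * (1 / 2 : ℝ) ^ i) ∧
      TendstoUniformly u φ atTop := by
  have hd : ∀ x i, dist (u i x) (u (i + 1) x) ≤ (2 : ℝ) / 2 / 2 ^ i := by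
    intro x i
    rw [dist_eq_norm]
    refine (hu i x).trans (le_of_eq ?_)
    rw [one_div, inv_pow]
    norm_num
  have hl : ∀ x, ∃ y, Tendsto (fun i => u i x) atTop (𝓝 y) := fun x =>
    cauchySeq_tendsto_of_complete (cauchySeq_of_le_geometric_two (hd x))
  choose φ hφ using hl
  have hb : ∀ i x, ‖u i x - φ x‖ ≤ 2 * (1 / 2 : ℝ) ^ i := by
    intro i x
    have h := dist_le_of_le_geometric_two_of_tendsto (hd x) (hφ x) i
    rw [dist_eq_norm] at h
    refine h.trans (le_of_eq ?_)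
    rw [one_div, inv_pow, div_eq_mul_inv]
  have hun : TendstoUniformly u φ atTop := by
    rw [Metric.tendstoUniformly_iff]
    intro ε hε
    filter_upwards [(tends 2).eventually (gt_mem_nhds hε)] with i hi x
    rw [dist_comm, dist_eq_norm]
    exact lt_of_le_of_lt (hb i x) hi
  exact ⟨φ, hun.continuous (Eventually.of_forall hc).frequently, hb, hun⟩

/-- uniform limits of fast Cauchy sequences of homeomorphisms -/
lemma limH {X : Type*} [NormedAddCommGroup X] [CompleteSpace X] (u : ℕ → (X ≃ₜ X))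
    (hu : ∀ i x, ‖u i x - u (i + 1) x‖ ≤ (1 / 2 : ℝ) ^ i)
    (hv : ∀ i x y, u i x = u (i + 1) y → ‖x - y‖ ≤ (1 / 2 : ℝ) ^ i) :
    ∃ Φ : X ≃ₜ X, (∀ i x, ‖u i x - Φ x‖ ≤ 2 * (1 / 2 : ℝ) ^ i) ∧
      ∀ i x y, u i x = Φ y → ‖x - y‖ ≤ 2 * (1 / 2 : ℝ) ^ i := by
  obtain ⟨φ, hφc, hφ, hφu⟩ := lim (fun i => u i) hu fun i => (u i).continuous
  obtain ⟨χ, hχc, hχ, hχu⟩ := lim (fun i => (u i).symm)
    (fun i z => hv i _ _ (by rw [Homeomorph.apply_symm_apply, Homeomorph.apply_symm_apply]))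
    fun i => (u i).symm.continuous
  have h1 : ∀ z, φ (χ z) = z := by
    intro z
    have h := hφu.tendsto_comp (x := χ z) hφc.continuousAt (hχu.tendsto_at z)
    have h2 : Tendsto (fun n => u n ((u n).symm z)) atTop (𝓝 z) := by
      simp only [Homeomorph.apply_symm_apply]
      exact tendsto_const_nhds
    exact tendsto_nhds_unique h h2
  have h2 : ∀ x, χ (φ x) = x := by
    intro x
    have h := hχu.tendsto_comp (x := φ x) hχc.continuousAt (hφu.tendsto_at x)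
    have h2 : Tendsto (fun n => (u n).symm (u n x)) atTop (𝓝 x) := by
      simp only [Homeomorph.symm_apply_apply]
      exact tendsto_const_nhds
    exact tendsto_nhds_unique h h2
  let Φ : X ≃ₜ X :=
    { toFun := φ
      invFun := χ
      left_inv := h2
      right_inv := h1
      continuous_toFun := hφc
      continuous_invFun := hχc }
  refine ⟨Φ, hφ, fun i x y hxy => ?_⟩
  have h3 : u i x = φ y := hxy
  have h4 := hχ i (φ y)
  rw [h2, ← h3] at h4
  simpa using h4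

variable {n : ℕ}

lemma Q_cont : Continuous (Q : E n → ℝ) := by
  unfold Q
  fun_prop

lemma K_compact (r : ℝ) : IsCompact {x : E n | Q x ≤ r ^ 2} := by
  refine Metric.isCompact_of_isClosed_isBounded (isClosed_le Q_cont continuous_const) ?_
  refine (Metric.isBounded_closedBall (x := (0 : E n)) (r := |r|)).subset fun p hp => ?_
  have hp' : Q p ≤ r ^ 2 := hp
  rw [mem_closedBall_zero_iff]
  have hterm : ∀ i, (p.1 i) ^ 2 + (p.2 i) ^ 2 ≤ r ^ 2 := fun i =>
    (Finset.single_le_sum (f := fun i => (p.1 i) ^ 2 + (p.2 i) ^ 2)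
      (fun i _ => by positivity) (Finset.mem_univ i)).trans hp'
  have h1 : ‖p.1‖ ≤ |r| := by
    rw [pi_norm_le_iff_of_nonneg (abs_nonneg r)]
    intro i
    rw [Real.norm_eq_abs]
    exact sq_le_sq.1 (by nlinarith [hterm i, sq_nonneg (p.2 i)])
  have h2 : ‖p.2‖ ≤ |r| := by
    rw [pi_norm_le_iff_of_nonneg (abs_nonneg r)]
    intro i
    rw [Real.norm_eq_abs]
    exact sq_le_sq.1 (by nlinarith [hterm i, sq_nonneg (p.1 i)])
  exact max_le h1 h2

/-- the flow consists of homeomorphisms -/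
lemma exists_homeo {r : ℝ} (hr0 : 0 < r) (hr1 : r < 1) (a : HI n r) {t : ℝ}
    (ht : t ∈ Icc (0 : ℝ) 1) : ∃ u : E n ≃ₜ E n, ∀ x, u x = a.ψ t x := by
  have hH : HamOn a.H {x : E n | Q x ≤ r ^ 2} := by
    refine ⟨a.smooth, K_compact r, fun x hx => ?_, fun t x hx => a.supp t x (not_le.1 hx)⟩
    have hx' : Q x ≤ r ^ 2 := hx
    show Q x < 1
    nlinarith
  obtain ⟨u, -, hfl⟩ := tflow n a.H _ hH 0 t le_rfl ht.1 ht.2
  refine ⟨u, fun x => ?_⟩
  obtain ⟨γ, h1, h2, h3⟩ := hfl x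
  rw [← h2]
  exact uni2 bd n a.H _ hH 0 t le_rfl ht.1 ht.2 γ (fun τ => a.ψ τ x) (by rw [h1]; exact (a.zero x).symm)
    h3 (fun τ _ => a.ode τ x) t ⟨ht.1, le_rfl⟩

end HLIM

open HLIM in
/-- BG-HLIM -/
theorem t_HLIM : S_HLIM := by
  intro n r hr0 hr1 a ha
  have key : ∀ t : ℝ, ∃ Φ : Homeos n, t ∈ Icc (0 : ℝ) 1 →
      (∀ i x, ‖(a i).ψ t x - Φ.map x‖ ≤ 2 * (1 / 2) ^ i) ∧
      ∀ i x y, (a i).ψ t x = Φ.map y → ‖x - y‖ ≤ 2 * (1 / 2) ^ i := by
    intro t
    by_cases ht : t ∈ Icc (0 : ℝ) 1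
    · choose u hu using fun i => exists_homeo hr0 hr1 (a i) ht
      obtain ⟨Φ, h1, h2⟩ := limH u
        (fun i x => by rw [hu, hu]; exact (ha i).2.1 t ht x)
        (fun i x y hxy => by rw [hu, hu] at hxy; exact (ha i).2.2 t ht x y hxy)
      refine ⟨Φ, fun _ => ⟨fun i x => ?_, fun i x y hxy => ?_⟩⟩
      · rw [← hu]
        exact h1 i x
      · rw [← hu] at hxy
        exact h2 i x y hxy
    · exact ⟨1, fun h => absurd h ht⟩
  choose Φ hΦ using key
  exact ⟨Φ, fun i t ht x => (hΦ t ht).1 i x, fun i t ht x y => (hΦ t ht).2 i x y⟩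

end Pool.Agent.NH65.BG
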