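import Pool.Agent.NH65.BG.Stm3

/-!
# BG-HMON: hameomorphisms of larger balls
-/

set_option autoImplicit false

open Set Filter Topology MeasureTheory
open Pool.Agent.Y453.HB (E Q XH)
open Pool.Agent.R773.HN

namespace Pool.Agent.NH65.BG

namespace HMON

/-- the same Hamiltonian, seen as supported in a larger ball -/
def lift {n : ℕ} {r s : ℝ} (hr : 0 < r) (hrs : r ≤ s) (a : HI n r) : HI n s where
  H := a.H
  ψ := a.ψ
  smooth := a.smooth
  supp := fun t x hx => a.supp t x (lt_of_le_of_lt (pow_le_pow_left₀ hr.le hrs 2) hx)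
  zero := a.zero
  ode := a.ode

end HMON

theorem t_HMON : S_HMON := by
  intro n r s hr hrs φ hφ
  obtain ⟨a, ha, Φ, hΦ, h1⟩ := hφ
  exact ⟨fun i => HMON.lift hr hrs (a i), ha, Φ, hΦ, h1⟩

end Pool.Agent.NH65.BG
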