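import Pool.Agent.NH65.BG.Stm3
import Pool.Agent.R773.HN.Bd
import Pool.Agent.Y453.HB.Tri

/-!
# BG-HSEP: separability
-/

set_option autoImplicit false

open Set Filter Topology MeasureTheory
open Pool.Agent.Y453.HB (E Q XH)
open Pool.Agent.R773.HN

namespace Pool.Agent.NH65.BG

namespace HSEP

variable {n : ℕ} {r : ℝ}

/-- the closed ball -/
def K (n : ℕ) (r : ℝ) : Set (E n) := {x | Q x ≤ r ^ 2}

theorem K_compact (n : ℕ) (r : ℝ) : IsCompact (K n r) := Pool.Agent.Y453.HB.tri n |>.2.2.2.2.1 (r ^ 2)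

theorem off (a : HI n r) (t : ℝ) (x : E n) (hx : x ∉ K n r) : a.H t x = 0 :=
  a.supp t x (not_le.1 hx)

theorem XH_off (a : HI n r) (t : ℝ) (x : E n) (hx : x ∉ K n r) : XH (a.H t) x = 0 :=
  Bd.G_zero (K_compact n r) (fun t x h => off a t x h) (t, x) hx

theorem gron {H : ℝ → E n → ℝ} {C : ℝ} (hC0 : 0 ≤ C)
    (hL : ∀ t ∈ Icc (0 : ℝ) 1, ∀ x y, ‖XH (H t) x - XH (H t) y‖ ≤ C * ‖x - y‖) {f g : ℝ → E n}
    (hf : ∀ t ∈ Icc (0 : ℝ) 1, HasDerivAt f (XH (H t) (f t)) t)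
    (hg : ∀ t ∈ Icc (0 : ℝ) 1, HasDerivAt g (XH (H t) (g t)) t) {t : ℝ} (ht : t ∈ Icc (0 : ℝ) 1) :
    ‖f t - g t‖ ≤ ‖f 0 - g 0‖ * Real.exp C ∧ ‖f 0 - g 0‖ ≤ ‖f t - g t‖ * Real.exp C := by
  have hexp : Real.exp (C * (t - 0)) ≤ Real.exp C := Real.exp_le_exp.2 (by nlinarith [ht.1, ht.2])
  constructor
  · have h := dist_le_of_trajectories_ODE_of_mem (v := fun t x => XH (H t) x) (s := fun _ => univ)
      (K := ⟨C, hC0⟩) (f := f) (g := g) (a := 0) (b := 1) (δ := dist (f 0) (g 0))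
      (fun τ hτ => LipschitzOnWith.of_dist_le_mul fun x _ y _ => by
        rw [dist_eq_norm, dist_eq_norm]
        exact hL τ (Ico_subset_Icc_self hτ) x y)
      (fun τ hτ => (hf τ hτ).continuousAt.continuousWithinAt)
      (fun τ hτ => (hf τ (Ico_subset_Icc_self hτ)).hasDerivWithinAt) (fun _ _ => mem_univ _)
      (fun τ hτ => (hg τ hτ).continuousAt.continuousWithinAt)
      (fun τ hτ => (hg τ (Ico_subset_Icc_self hτ)).hasDerivWithinAt) (fun _ _ => mem_univ _)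
      le_rfl t ht
    rw [dist_eq_norm, dist_eq_norm] at h
    exact h.trans (mul_le_mul_of_nonneg_left hexp (norm_nonneg _))
  · have hm : ∀ τ ∈ Icc (0 : ℝ) t, t - τ ∈ Icc (0 : ℝ) 1 := fun τ hτ =>
      ⟨by linarith [hτ.2], by linarith [hτ.1, ht.2]⟩
    have h := dist_le_of_trajectories_ODE_of_mem (v := fun τ x => -XH (H (t - τ)) x)
      (s := fun _ => univ) (K := ⟨C, hC0⟩) (f := fun τ => f (t - τ)) (g := fun τ => g (t - τ))
      (a := 0) (b := t) (δ := dist (f t) (g t))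
      (fun τ hτ => LipschitzOnWith.of_dist_le_mul fun x _ y _ => by
        rw [dist_eq_norm, dist_eq_norm, neg_sub_neg, norm_sub_rev]
        exact hL _ (hm τ (Ico_subset_Icc_self hτ)) x y)
      (fun τ hτ => ((hf _ (hm τ hτ)).comp_const_sub t τ).continuousAt.continuousWithinAt)
      (fun τ hτ => ((hf _ (hm τ (Ico_subset_Icc_self hτ))).comp_const_sub t τ).hasDerivWithinAt)
      (fun _ _ => mem_univ _)
      (fun τ hτ => ((hg _ (hm τ hτ)).comp_const_sub t τ).continuousAt.continuousWithinAt)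
      (fun τ hτ => ((hg _ (hm τ (Ico_subset_Icc_self hτ))).comp_const_sub t τ).hasDerivWithinAt)
      (fun _ _ => mem_univ _) (by simp) t ⟨ht.1, le_rfl⟩
    simp only [sub_self, dist_eq_norm] at h
    exact h.trans (mul_le_mul_of_nonneg_left hexp (norm_nonneg _))

theorem consts (a : HI n r) : ∃ C : ℝ, 0 ≤ C ∧ (∀ t ∈ Icc (0 : ℝ) 1, ∀ x, ‖XH (a.H t) x‖ ≤ C) ∧
    ∀ t ∈ Icc (0 : ℝ) 1, ∀ x y, ‖a.ψ t x - a.ψ t y‖ ≤ ‖x - y‖ * Real.exp C ∧
      ‖x - y‖ ≤ ‖a.ψ t x - a.ψ t y‖ * Real.exp C := by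
  obtain ⟨C, hC0, h1, h2, -⟩ := bd n a.H a.smooth (K n r) (K_compact n r) (off a)
  refine ⟨C, hC0, h1, fun t ht x y => ?_⟩
  have h := gron hC0 h2 (f := fun s => a.ψ s x) (g := fun s => a.ψ s y) (fun t _ => a.ode t x)
    (fun t _ => a.ode t y) ht
  simpa only [a.zero] using h

theorem psi_off (a : HI n r) {t : ℝ} (ht : t ∈ Icc (0 : ℝ) 1) (x : E n) (hx : x ∉ K n r) :
    a.ψ t x = x := by
  obtain ⟨C, hC0, -, h2, -⟩ := bd n a.H a.smooth (K n r) (K_compact n r) (off a)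
  have h := (gron hC0 h2 (f := fun s => a.ψ s x) (g := fun _ => x) (fun t _ => a.ode t x)
    (fun t _ => by
      rw [XH_off a t x hx]
      exact hasDerivAt_const t x) ht).1
  simp only [a.zero, sub_self, norm_zero, zero_mul] at h
  exact sub_eq_zero.1 (norm_le_zero_iff.1 h)

theorem cont (a : HI n r) : Continuous (fun p : (Icc (0 : ℝ) 1) × (K n r) =>
    ((a.H p.1 p.2, a.ψ p.1 p.2) : ℝ × E n)) := by
  refine Continuous.prodMk ?_ ?_
  · exact a.smooth.continuous.comp ((continuous_subtype_val.comp continuous_fst).prodMk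
      (continuous_subtype_val.comp continuous_snd))
  · obtain ⟨C, hC0, h1, h2⟩ := consts a
    refine LipschitzWith.continuous (K := ⟨C + Real.exp C, by positivity⟩)
      (LipschitzWith.of_dist_le_mul fun p q => ?_)
    have e1 : ‖a.ψ p.1 p.2 - a.ψ q.1 p.2‖ ≤ C * ‖(p.1 : ℝ) - q.1‖ :=
      Convex.norm_image_sub_le_of_norm_hasDerivWithin_le (f := fun s => a.ψ s p.2)
        (f' := fun s => XH (a.H s) (a.ψ s p.2)) (s := Icc (0 : ℝ) 1)
        (fun s _ => (a.ode s p.2).hasDerivWithinAt) (fun s hs => h1 s hs _) (convex_Icc 0 1)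
        q.1.2 p.1.2
    have e2 : ‖a.ψ q.1 p.2 - a.ψ q.1 q.2‖ ≤ ‖(p.2 : E n) - q.2‖ * Real.exp C :=
      (h2 q.1 q.1.2 p.2 q.2).1
    have d1 : ‖(p.1 : ℝ) - q.1‖ ≤ dist p q := by
      rw [← dist_eq_norm]
      exact le_max_left (dist p.1 q.1) (dist p.2 q.2)
    have d2 : ‖(p.2 : E n) - q.2‖ ≤ dist p q := by
      rw [← dist_eq_norm]
      exact le_max_right (dist p.1 q.1) (dist p.2 q.2)
    rw [dist_eq_norm]
    calc ‖a.ψ p.1 p.2 - a.ψ q.1 q.2‖
        ≤ ‖a.ψ p.1 p.2 - a.ψ q.1 p.2‖ + ‖a.ψ q.1 p.2 - a.ψ q.1 q.2‖ :=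
          norm_sub_le_norm_sub_add_norm_sub _ _ _
      _ ≤ C * dist p q + dist p q * Real.exp C :=
          add_le_add (e1.trans (mul_le_mul_of_nonneg_left d1 hC0))
            (e2.trans (mul_le_mul_of_nonneg_right d2 (Real.exp_pos _).le))
      _ = (C + Real.exp C) * dist p q := by ring

/-- the zero Hamiltonian -/
noncomputable def zeroHI (n : ℕ) (r : ℝ) : HI n r where
  H := fun _ _ => 0
  ψ := fun _ x => x
  smooth := contDiff_const
  supp := fun _ _ _ => rfl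
  zero := fun _ => rfl
  ode := fun t x => by
    have h : XH (fun _ : E n => (0 : ℝ)) x = 0 := by
      unfold XH
      ext i <;> simp
    rw [h]
    exact hasDerivAt_const t x

theorem hofer_le {F : ℝ → E n → ℝ} {δ : ℝ} (hF : ∀ t ∈ Icc (0 : ℝ) 1, ∀ x, |F t x| ≤ δ) :
    hofer F ≤ 2 * δ := by
  unfold hofer
  have h := intervalIntegral.norm_integral_le_of_norm_le_const (a := (0 : ℝ)) (b := 1)
    (f := fun t => (⨆ x, F t x) - (⨅ x, F t x)) (C := 2 * δ) (fun t ht => by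
      rw [uIoc_of_le zero_le_one] at ht
      have ht' : t ∈ Icc (0 : ℝ) 1 := Ioc_subset_Icc_self ht
      have hb := fun x => abs_le.1 (hF t ht' x)
      have h1 : (⨆ x, F t x) ≤ δ := ciSup_le fun x => (hb x).2
      have h2 : -δ ≤ ⨅ x, F t x := le_ciInf fun x => (hb x).1
      have h3 : -δ ≤ ⨆ x, F t x :=
        (hb 0).1.trans (le_ciSup (f := fun x => F t x) ⟨δ, by rintro _ ⟨x, rfl⟩; exact (hb x).2⟩ 0)
      have h4 : (⨅ x, F t x) ≤ δ :=
        (ciInf_le (f := fun x => F t x) ⟨-δ, by rintro _ ⟨x, rfl⟩; exact (hb x).1⟩ 0).trans (hb 0).2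
      rw [Real.norm_eq_abs, abs_le]
      constructor <;> linarith)
  rw [sub_zero, abs_one, mul_one] at h
  exact (le_abs_self _).trans h

end HSEP

open HSEP in
theorem t_HSEP : S_HSEP := by
  intro n r _ _
  haveI : CompactSpace (K n r) := isCompact_iff_compactSpace.1 (K_compact n r)
  let Ψ : HI n r → C((Icc (0 : ℝ) 1) × (K n r), ℝ × E n) := fun a => ⟨_, cont a⟩
  haveI : Nonempty (Set.range Ψ) := ⟨⟨Ψ (zeroHI n r), zeroHI n r, rfl⟩⟩
  choose d hd using fun k : ℕ => (TopologicalSpace.denseSeq (Set.range Ψ) k).2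
  refine ⟨d, fun a ε hε => ?_⟩
  obtain ⟨C, hC0, h1, h2⟩ := consts a
  have hM : 0 < Real.exp C := Real.exp_pos C
  set δ : ℝ := ε / (2 + Real.exp C) with hδdef
  have hδ : 0 < δ := by positivity
  have hδε : δ * (2 + Real.exp C) = ε := by
    rw [hδdef]
    field_simp
  obtain ⟨k, hk⟩ := (TopologicalSpace.denseRange_denseSeq (Set.range Ψ)).exists_dist_lt
    ⟨Ψ a, a, rfl⟩ hδ
  have hk' : dist (Ψ a) (Ψ (d k)) ≤ δ := by
    rw [hd k]
    exact hk.le
  have hp : ∀ t (ht : t ∈ Icc (0 : ℝ) 1) x (hx : x ∈ K n r),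
      dist (a.H t x) ((d k).H t x) ≤ δ ∧ dist (a.ψ t x) ((d k).ψ t x) ≤ δ := by
    intro t ht x hx
    have h := (ContinuousMap.dist_apply_le_dist (f := Ψ a) (g := Ψ (d k))
      (⟨t, ht⟩, ⟨x, hx⟩)).trans hk'
    exact ⟨(le_max_left _ _).trans h, (le_max_right _ _).trans h⟩
  have hH : ∀ t ∈ Icc (0 : ℝ) 1, ∀ x, |a.H t x - (d k).H t x| ≤ δ := by
    intro t ht x
    by_cases hx : x ∈ K n r
    · rw [← Real.dist_eq]
      exact (hp t ht x hx).1
    · rw [off a t x hx, off (d k) t x hx, sub_zero, abs_zero]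
      exact hδ.le
  have hψ : ∀ t ∈ Icc (0 : ℝ) 1, ∀ x, ‖a.ψ t x - (d k).ψ t x‖ ≤ δ := by
    intro t ht x
    by_cases hx : x ∈ K n r
    · rw [← dist_eq_norm]
      exact (hp t ht x hx).2
    · rw [psi_off a ht x hx, psi_off (d k) ht x hx, sub_self, norm_zero]
      exact hδ.le
  refine ⟨k, ?_, fun t ht x => (hψ t ht x).trans ?_, fun t ht x y hxy => ?_⟩
  · refine (hofer_le hH).trans ?_
    nlinarith
  · nlinarith
  · have e1 := (h2 t ht x y).2
    have e2 : ‖a.ψ t x - a.ψ t y‖ ≤ δ := by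
      rw [hxy, norm_sub_rev]
      exact hψ t ht y
    have e3 := mul_le_mul_of_nonneg_right e2 hM.le
    nlinarith

end Pool.Agent.NH65.BG
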