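import Pool.Agent.NH65.BG.Stm3
import Pool.Agent.NH65.BG.SPL

/-!
# Project BG, part BG-HTRI: symmetry and the triangle inequality
-/

set_option autoImplicit false

open Set Filter Topology MeasureTheory
open Pool.Agent.Y453.HB (E Q XH)
open Pool.Agent.R773.HN

namespace Pool.Agent.NH65.BG

namespace HTRI

variable {n : ℕ}

lemma K_compact (r : ℝ) : IsCompact {x : E n | Q x ≤ r ^ 2} :=
  (Pool.Agent.Y453.HB.tri n).2.2.2.2.1 _

/-- continuous and zero off a ball -/
def Adm (r : ℝ) (F : ℝ → E n → ℝ) : Prop :=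
  Continuous (Function.uncurry F) ∧ ∀ t x, r ^ 2 < Q x → F t x = 0

lemma Adm.bdd {r : ℝ} {F : ℝ → E n → ℝ} (h : Adm r F) :
    ∃ C : ℝ, 0 ≤ C ∧ ∀ t ∈ Icc (0 : ℝ) 1, ∀ x, |F t x| ≤ C := by
  obtain ⟨C, hC⟩ := ((isCompact_Icc (a := (0 : ℝ)) (b := 1)).prod (K_compact (n := n) r)).exists_bound_of_continuousOn
    h.1.continuousOn
  refine ⟨max C 0, le_max_right _ _, fun t ht x => ?_⟩
  by_cases hx : Q x ≤ r ^ 2
  · exact (hC (t, x) ⟨ht, hx⟩).trans (le_max_left _ _)
  · rw [h.2 t x (not_le.1 hx), abs_zero]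
    exact le_max_right _ _

lemma Adm.bdt {r : ℝ} {F : ℝ → E n → ℝ} (h : Adm r F) (t : ℝ) : ∃ C : ℝ, ∀ x, |F t x| ≤ C := by
  have h1 : Continuous (F t) := h.1.comp (Continuous.prodMk_right t)
  obtain ⟨C, hC⟩ := (K_compact (n := n) r).exists_bound_of_continuousOn h1.continuousOn
  refine ⟨max C 0, fun x => ?_⟩
  by_cases hx : Q x ≤ r ^ 2
  · exact (hC x hx).trans (le_max_left _ _)
  · rw [h.2 t x (not_le.1 hx), abs_zero]
    exact le_max_right _ _

lemma Adm.above {r : ℝ} {F : ℝ → E n → ℝ} (h : Adm r F) (t : ℝ) : BddAbove (range (F t)) := by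
  obtain ⟨C, hC⟩ := h.bdt t
  exact ⟨C, by rintro _ ⟨x, rfl⟩; exact (abs_le.1 (hC x)).2⟩

lemma Adm.below {r : ℝ} {F : ℝ → E n → ℝ} (h : Adm r F) (t : ℝ) : BddBelow (range (F t)) := by
  obtain ⟨C, hC⟩ := h.bdt t
  exact ⟨-C, by rintro _ ⟨x, rfl⟩; exact (abs_le.1 (hC x)).1⟩

lemma Adm.int {r : ℝ} {F : ℝ → E n → ℝ} (h : Adm r F) :
    IntervalIntegrable (fun t => (⨆ x, F t x) - (⨅ x, F t x)) volume 0 1 := by
  obtain ⟨C, hC0, hC⟩ := h.bdd
  rw [intervalIntegrable_iff_integrableOn_Ioc_of_le zero_le_one]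
  have hc : ∀ x, Continuous (fun t => F t x) := fun x => h.1.comp (Continuous.prodMk_left x)
  have m1 : Measurable (fun t => ⨆ x, F t x) :=
    (lowerSemicontinuous_ciSup (fun t => h.above t) fun x => (hc x).lowerSemicontinuous).measurable
  have m2 : Measurable (fun t => ⨅ x, F t x) :=
    (upperSemicontinuous_ciInf (fun t => h.below t) fun x => (hc x).upperSemicontinuous).measurable
  refine Measure.integrableOn_of_bounded (M := 2 * C) (by simp) (m1.sub m2).aestronglyMeasurable ?_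
  refine (ae_restrict_iff' measurableSet_Ioc).2 (Eventually.of_forall fun t ht => ?_)
  have ht' : t ∈ Icc (0 : ℝ) 1 := Ioc_subset_Icc_self ht
  have e1 : (⨆ x, F t x) ≤ C := ciSup_le fun x => (abs_le.1 (hC t ht' x)).2
  have e2 : -C ≤ ⨅ x, F t x := le_ciInf fun x => (abs_le.1 (hC t ht' x)).1
  have e3 : (⨅ x, F t x) ≤ ⨆ x, F t x :=
    (ciInf_le (h.below t) (0 : E n)).trans (le_ciSup (h.above t) (0 : E n))
  rw [Real.norm_eq_abs, abs_le]
  constructor <;> linarith

lemma adm_sub {r : ℝ} (a b : HI n r) : Adm r (fun t x => a.H t x - b.H t x) :=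
  ⟨a.smooth.continuous.sub b.smooth.continuous, fun t x hx => by
    show a.H t x - b.H t x = 0
    rw [a.supp t x hx, b.supp t x hx, sub_zero]⟩

lemma hofer_comm {r : ℝ} (a b : HI n r) :
    hofer (fun t x => b.H t x - a.H t x) = hofer (fun t x => a.H t x - b.H t x) := by
  unfold hofer
  congr 1
  funext t
  have h1 := (adm_sub a b).above t
  have h2 := (adm_sub a b).below t
  have h3 := (adm_sub b a).above t
  have h4 := (adm_sub b a).below t
  have e1 : (⨆ x, (b.H t x - a.H t x)) = - ⨅ x, (a.H t x - b.H t x) := by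
    apply le_antisymm
    · refine ciSup_le fun x => ?_
      have := ciInf_le h2 x
      linarith
    · rw [neg_le]
      refine le_ciInf fun x => ?_
      have := le_ciSup h3 x
      linarith
  have e2 : (⨅ x, (b.H t x - a.H t x)) = - ⨆ x, (a.H t x - b.H t x) := by
    apply le_antisymm
    · rw [le_neg]
      refine ciSup_le fun x => ?_
      have := ciInf_le h4 x
      linarith
    · refine le_ciInf fun x => ?_
      have := le_ciSup h1 x
      linarith
  rw [e1, e2]
  ring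

lemma hofer_tri {r : ℝ} (a b c : HI n r) :
    hofer (fun t x => a.H t x - c.H t x) ≤
      hofer (fun t x => a.H t x - b.H t x) + hofer (fun t x => b.H t x - c.H t x) := by
  unfold hofer
  rw [← intervalIntegral.integral_add (adm_sub a b).int (adm_sub b c).int]
  refine intervalIntegral.integral_mono_on zero_le_one (adm_sub a c).int
    ((adm_sub a b).int.add (adm_sub b c).int) fun t _ => ?_
  have h1 := (adm_sub a b).above t
  have h2 := (adm_sub a b).below t
  have h3 := (adm_sub b c).above t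
  have h4 := (adm_sub b c).below t
  have e1 : (⨆ x, (a.H t x - c.H t x)) ≤
      (⨆ x, (a.H t x - b.H t x)) + ⨆ x, (b.H t x - c.H t x) := by
    refine ciSup_le fun x => ?_
    have p1 := le_ciSup h1 x
    have p2 := le_ciSup h3 x
    linarith
  have e2 : (⨅ x, (a.H t x - b.H t x)) + (⨅ x, (b.H t x - c.H t x)) ≤
      ⨅ x, (a.H t x - c.H t x) := by
    refine le_ciInf fun x => ?_
    have p1 := ciInf_le h2 x
    have p2 := ciInf_le h4 x
    linarith
  simp only
  linarith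

lemma surj {r : ℝ} (hr0 : 0 < r) (hr1 : r < 1) (b : HI n r) {t : ℝ} (ht : t ∈ Icc (0 : ℝ) 1)
    (w : E n) : ∃ y, b.ψ t y = w := by
  have hH : HamOn b.H {x : E n | Q x ≤ r ^ 2} :=
    ⟨b.smooth, K_compact r, fun x hx => by
      have h1 : Q x ≤ r ^ 2 := hx
      have h2 : r ^ 2 < 1 := by nlinarith
      exact lt_of_le_of_lt h1 h2, fun t x hx => b.supp t x (not_le.1 hx)⟩
  obtain ⟨v, -, hfl⟩ := tflow n b.H _ hH 0 t le_rfl ht.1 ht.2
  have key : ∀ x, v x = b.ψ t x := by
    intro x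
    obtain ⟨γ, h1, h2, h3⟩ := hfl x
    have h4 : γ t = (fun τ => b.ψ τ x) t :=
      SPL.eq_of (γ' := fun τ => b.ψ τ x) hH le_rfl ht.1 ht.2 (h1.trans (b.zero x).symm) h3
        fun τ _ => b.ode τ x
    exact h2.symm.trans h4
  exact ⟨v.symm w, by rw [← key, v.apply_symm_apply]⟩

end HTRI

open HTRI in
theorem t_HTRI : S_HTRI := by
  intro n r hr0 hr1 a b c ε δ
  refine ⟨fun h => ⟨?_, fun t ht x => ?_, fun t ht x y hxy => ?_⟩, fun h h' => ⟨?_, fun t ht x => ?_,
    fun t ht x z hxz => ?_⟩⟩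
  · rw [hofer_comm]
    exact h.1
  · rw [norm_sub_rev]
    exact h.2.1 t ht x
  · rw [norm_sub_rev]
    exact h.2.2 t ht y x hxy.symm
  · exact (hofer_tri a b c).trans (add_le_add h.1 h'.1)
  · exact (norm_sub_le_norm_sub_add_norm_sub _ (b.ψ t x) _).trans
      (add_le_add (h.2.1 t ht x) (h'.2.1 t ht x))
  · obtain ⟨y, hy⟩ := surj hr0 hr1 b ht (a.ψ t x)
    exact (norm_sub_le_norm_sub_add_norm_sub _ y _).trans
      (add_le_add (h.2.2 t ht x y hy.symm) (h'.2.2 t ht y z (hy.trans hxz)))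

end Pool.Agent.NH65.BG
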