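import Pool.Agent.NH65.BG.Stm

/-!
# Project BG: Pettis' lemma
-/

set_option autoImplicit false

open Set Filter Topology
open scoped Pointwise

namespace Pool.Agent.NH65.BG

theorem t_PET : S_PET := by
  intro Γ _ _ _ _ A hA hn
  obtain ⟨U, hU, hAU⟩ := hA.residualEq_isOpen
  have hM : IsMeagre {x : Γ | ¬ (x ∈ A ↔ x ∈ U)} := by
    unfold IsMeagre
    filter_upwards [hAU] with x hx
    have hx' : (x ∈ A) = (x ∈ U) := hx
    show ¬ ¬ (x ∈ A ↔ x ∈ U)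
    rw [not_not, hx']
  have hUn : U.Nonempty := by
    by_contra h
    rw [Set.not_nonempty_iff_eq_empty] at h
    apply hn
    refine hM.mono ?_
    intro x hx
    show ¬ (x ∈ A ↔ x ∈ U)
    rw [h]
    intro h2
    exact h2.1 hx
  obtain ⟨u, hu⟩ := hUn
  have hW : {g : Γ | g * u ∈ U} ∈ 𝓝 (1 : Γ) := by
    have hc : Continuous fun g : Γ => g * u := continuous_id.mul continuous_const
    refine (hU.preimage hc).mem_nhds ?_
    show (1 : Γ) * u ∈ U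
    rw [one_mul]
    exact hu
  refine mem_of_superset hW ?_
  intro g hg
  have hc : Continuous fun x : Γ => g⁻¹ * x := continuous_const.mul continuous_id
  have hV : IsOpen ((fun x : Γ => g⁻¹ * x) ⁻¹' U ∩ U) := (hU.preimage hc).inter hU
  have hVn : ((fun x : Γ => g⁻¹ * x) ⁻¹' U ∩ U).Nonempty := by
    refine ⟨g * u, ?_, hg⟩
    show g⁻¹ * (g * u) ∈ U
    rw [inv_mul_cancel_left]
    exact hu
  have hM2 : IsMeagre ((fun x : Γ => g⁻¹ * x) ⁻¹' {x : Γ | ¬ (x ∈ A ↔ x ∈ U)}) :=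
    hM.preimage_of_isOpenMap hc (isOpenMap_mul_left g⁻¹)
  by_contra hgA
  refine not_isMeagre_of_isOpen hV hVn ((hM.union hM2).mono ?_)
  rintro x ⟨hx1, hx2⟩
  by_contra hx3
  rw [Set.mem_union, not_or] at hx3
  obtain ⟨h3, h4⟩ := hx3
  have h5 : x ∈ A ↔ x ∈ U := not_not.1 h3
  have h6 : g⁻¹ * x ∈ A ↔ g⁻¹ * x ∈ U := not_not.1 h4
  apply hgA
  refine Set.mem_mul.2 ⟨x, h5.2 hx2, (g⁻¹ * x)⁻¹, Set.inv_mem_inv.2 (h6.2 hx1), ?_⟩
  group

end Pool.Agent.NH65.BG
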