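import Pool.Agent.NH65.BG.Defs
import Pool.Agent.NH65.BG.Fin
import Pool.Agent.NH65.BG.BP
import Pool.Agent.NH65.BG.PET
import Pool.Agent.NH65.BG.POL
import Pool.Agent.NH65.BG.CNT
import Pool.Agent.NH65.BG.TOP
import Pool.Agent.NH65.BG.NBH
import Pool.Agent.NH65.BG.GA
import Pool.Agent.NH65.BG.GB
import Pool.Agent.NH65.BG.GC
import Pool.Agent.NH65.BG.SPL
import Pool.Agent.NH65.BG.ANA
import Pool.Agent.R773.HN.Fin3

/-!
# Project BG: the main theorems
-/

set_option autoImplicit false

open Set Filter Topology MeasureTheory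
open Pool.Agent.Y453.HB (E Q)
open Pool.Agent.R773.HN
open scoped Pointwise commutatorElement

namespace Pool.Agent.NH65.BG

variable {n : ℕ}

theorem small_of {N : Subgroup (HamHomeo n)} (hN : N ≠ ⊤) (hb : HasBaireProperty N) : IsSmall N :=
  dichotomy t_PET t_POL t_CNT t_NBH (t_GA t_POL) (t_GB t_POL t_TOP) (t_GC t_TOP) t_SPL N hN hb

/-- `G` is analytic -/
theorem analytic_G (n : ℕ) : AnalyticSet (HamHomeo n : Set (Homeos n)) := by
  have := (t_POL n).1
  have h : (HamHomeo n : Set (Homeos n)) = ⋃ j : ℕ, Gam n (1 - 1 / ((j : ℝ) + 2)) := by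
    apply Subset.antisymm
    · intro f hf
      obtain ⟨j, hj⟩ := t_GC t_TOP n f hf
      exact mem_iUnion.2 ⟨j, hj⟩
    · apply iUnion_subset
      intro j
      have hj2 : (0 : ℝ) < (j : ℝ) + 2 := by positivity
      apply t_GB t_POL t_TOP n
      · rw [sub_pos, div_lt_one hj2]
        linarith [(Nat.cast_nonneg j : (0 : ℝ) ≤ j)]
      · have : 0 < 1 / ((j : ℝ) + 2) := by positivity
        linarith
  rw [h]
  exact AnalyticSet.iUnion fun j => isClosed_closure.analyticSet

theorem baire_of_analytic {N : Subgroup (HamHomeo n)} (h : AnalyticSet (img N)) : HasBaireProperty N := by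
  intro r hr hr1
  have := (t_POL n).1
  have hc : IsClosed (Gam n r) := isClosed_closure
  have : PolishSpace (Gam n r) := hc.polishSpace
  exact t_BP (Gam n r) _ (h.preimage continuous_subtype_val)

theorem baire_normalClosure {A : Set (Homeos n)} (hA : AnalyticSet A) :
    HasBaireProperty (Subgroup.normalClosure {g : HamHomeo n | g.1 ∈ A}) := by
  have := (t_POL n).1
  have := (t_POL n).2
  exact baire_of_analytic (t_ANA (Homeos n) (HamHomeo n) A (analytic_G n) hA)

/-- countable sets -/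
theorem baire_countable {Z : Set (HamHomeo n)} (hZ : Z.Countable) : HasBaireProperty (Subgroup.normalClosure Z) := by
  have := (t_POL n).1
  have h1 : AnalyticSet (Subtype.val '' Z : Set (Homeos n)) := by
    have h2 : (Subtype.val '' Z : Set (Homeos n)).Countable := hZ.image _
    have h3 : (Subtype.val '' Z : Set (Homeos n)) = ⋃ z : (Subtype.val '' Z : Set (Homeos n)), {z.1} := by
      ext x; simp
    rw [h3]
    have := h2.to_subtype
    exact AnalyticSet.iUnion fun z => isClosed_singleton.analyticSet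
  have h4 := baire_normalClosure h1
  have h5 : {g : HamHomeo n | g.1 ∈ (Subtype.val '' Z : Set (Homeos n))} = Z := by
    ext g; simp
  rwa [h5] at h4

/-- commutators -/
theorem baire_commutator : HasBaireProperty (commutator (HamHomeo n)) := by
  have := (t_POL n).1
  have := (t_POL n).2
  have hG := analytic_G n
  have h1 : AnalyticSet {f : Homeos n | ∃ g ∈ HamHomeo n, ∃ h ∈ HamHomeo n, ⁅g, h⁆ = f} := by
    have h2 : AnalyticSet {p : Homeos n × Homeos n | p.1 ∈ HamHomeo n ∧ p.2 ∈ HamHomeo n} := by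
      have h3 : {p : Homeos n × Homeos n | p.1 ∈ HamHomeo n ∧ p.2 ∈ HamHomeo n} =
          ⋂ b : Bool, (cond b (Prod.fst ⁻¹' (HamHomeo n : Set (Homeos n)))
            (Prod.snd ⁻¹' (HamHomeo n : Set (Homeos n))) : Set (Homeos n × Homeos n)) := by
        ext p
        simp [and_comm]
      rw [h3]
      apply AnalyticSet.iInter
      intro b
      cases b
      · exact hG.preimage continuous_snd
      · exact hG.preimage continuous_fst
    have h4 := h2.image_of_continuous (f := fun p : Homeos n × Homeos n => ⁅p.1, p.2⁆) (by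
      simp only [commutatorElement_def]
      fun_prop)
    convert h4 using 1
    ext f
    simp only [mem_ofPred_eq, mem_image, Prod.exists]
    constructor
    · rintro ⟨g, hg, h, hh, rfl⟩; exact ⟨g, h, ⟨hg, hh⟩, rfl⟩
    · rintro ⟨g, h, ⟨hg, hh⟩, rfl⟩; exact ⟨g, hg, h, hh, rfl⟩
  have h5 := baire_normalClosure h1
  have h6 : Subgroup.normalClosure {g : HamHomeo n |
      g.1 ∈ {f : Homeos n | ∃ g ∈ HamHomeo n, ∃ h ∈ HamHomeo n, ⁅g, h⁆ = f}} = commutator (HamHomeo n) := by
    apply le_antisymm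
    · apply Subgroup.normalClosure_le_normal
      rintro g ⟨a, ha, b, hb, hab⟩
      have : g = ⁅(⟨a, ha⟩ : HamHomeo n), (⟨b, hb⟩ : HamHomeo n)⁆ := Subtype.ext hab.symm
      rw [this]
      exact Subgroup.commutator_mem_commutator (Subgroup.mem_top _) (Subgroup.mem_top _)
    · rw [commutator_def, Subgroup.commutator_le]
      intro a _ b _
      apply Subgroup.subset_normalClosure
      exact ⟨a.1, a.2, b.1, b.2, rfl⟩
  rwa [h6] at h5

/-- the smallest normal subgroup -/
theorem smallest (hn : 0 < n) : ∃ S : Subgroup (HamHomeo n), S.Normal ∧ IsSimpleGroup S ∧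
    (∀ N : Subgroup (HamHomeo n), N.Normal → N ≠ ⊥ → S ≤ N) ∧ HasBaireProperty S ∧
    (¬ IsSimpleGroup (HamHomeo n) → IsSmall S) := by
  have hΓ : IsIntermediate (HamHomeo n) := by
    refine ⟨fun u hu => ?_, le_rfl⟩
    obtain ⟨r, hr, hr1, h⟩ := t_SPL n u hu
    obtain ⟨l, hl, hlv⟩ := h 1 one_pos
    rw [← hl]
    apply Subgroup.list_prod_mem
    intro v hv
    obtain ⟨h1, h2, -⟩ := hlv v hv
    exact t_GB t_POL t_TOP n r hr hr1 (subset_closure ⟨h1, h2⟩)
  have key : ∃ S : Subgroup (HamHomeo n), S.Normal ∧ IsSimpleGroup S ∧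
      ∀ N : Subgroup (HamHomeo n), N.Normal → N ≠ ⊥ → S ≤ N := by
    obtain ⟨S, s1, s2, s3, -⟩ := main_of' hSm hCo hn (HamHomeo n) hΓ.1 hΓ.2
    exact ⟨S, s1, s2, s3⟩
  obtain ⟨S, s1, s2, s3⟩ := key
  have hne : S ≠ ⊥ := by
    rintro rfl
    have := s2.toNontrivial
    exact not_subsingleton _ (inferInstance : Subsingleton (⊥ : Subgroup (HamHomeo n)))
  obtain ⟨c₀, hc₀⟩ := (Subgroup.ne_bot_iff_exists_ne_one).1 hne
  obtain ⟨c, hc, hc1⟩ : ∃ c : HamHomeo n, c ∈ S ∧ c ≠ 1 := ⟨c₀.1, c₀.2, fun h => hc₀ (Subtype.ext h)⟩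
  have hSc : Subgroup.normalClosure {c} = S := by
    apply le_antisymm
    · exact Subgroup.normalClosure_le_normal (by simpa using hc)
    · apply s3 _ inferInstance
      intro h
      have h1 : c ∈ Subgroup.normalClosure {c} := Subgroup.subset_normalClosure (mem_singleton c)
      rw [h, Subgroup.mem_bot] at h1
      exact hc1 h1
  have hb : HasBaireProperty S := by
    rw [← hSc]
    exact baire_countable (countable_singleton c)
  refine ⟨S, s1, s2, s3, hb, fun h => small_of ?_ hb⟩
  rintro rfl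
  exact h ((MulEquiv.isSimpleGroup_congr Subgroup.topEquiv).1 s2)

end Pool.Agent.NH65.BG
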