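import Pool.Agent.NH65.BG.Main
import Pool.Agent.NH65.BG.HSEP
import Pool.Agent.NH65.BG.HTRI
import Pool.Agent.NH65.BG.HLIM
import Pool.Agent.NH65.BG.HCAU
import Pool.Agent.NH65.BG.HAM
import Pool.Agent.NH65.BG.HMON
import Pool.Agent.NH65.BG.ANB

/-!
# Project BG: the group of hameomorphisms
-/

set_option autoImplicit false

open Set Filter Topology MeasureTheory
open Pool.Agent.Y453.HB (E Q)
open Pool.Agent.R773.HN

namespace Pool.Agent.NH65.BG

variable {n : ℕ}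

theorem analytic_hameo (n : ℕ) : AnalyticSet {φ : Homeos n | ∃ r : ℝ, 0 < r ∧ r < 1 ∧ IsHameo r φ} := by
  have h : {φ : Homeos n | ∃ r : ℝ, 0 < r ∧ r < 1 ∧ IsHameo r φ} =
      ⋃ j : ℕ, {φ : Homeos n | IsHameo (1 - 1 / ((j : ℝ) + 2)) φ} := by
    ext φ
    simp only [mem_ofPred_eq, mem_iUnion]
    constructor
    · rintro ⟨r, hr, hr1, hφ⟩
      obtain ⟨j, hj⟩ := exists_nat_gt (1 / (1 - r))
      refine ⟨j, t_HMON n r _ hr ?_ φ hφ⟩
      have h1 : 0 < 1 - r := by linarith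
      have h2 : 1 / ((j : ℝ) + 2) ≤ 1 - r := by
        rw [div_le_iff₀ (by positivity)]
        rw [div_lt_iff₀ h1] at hj
        nlinarith
      linarith
    · rintro ⟨j, hφ⟩
      have hj2 : (0 : ℝ) < (j : ℝ) + 2 := by positivity
      refine ⟨_, ?_, ?_, hφ⟩
      · rw [sub_pos, div_lt_one hj2]
        linarith [(Nat.cast_nonneg j : (0 : ℝ) ≤ j)]
      · have : 0 < 1 / ((j : ℝ) + 2) := by positivity
        linarith
  rw [h]
  refine AnalyticSet.iUnion fun j => ?_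
  have hj2 : (0 : ℝ) < (j : ℝ) + 2 := by positivity
  apply t_HAM t_HSEP t_HTRI t_HLIM t_HCAU t_TOP t_POL n
  · rw [sub_pos, div_lt_one hj2]
    linarith [(Nat.cast_nonneg j : (0 : ℝ) ≤ j)]
  · have : 0 < 1 / ((j : ℝ) + 2) := by positivity
    linarith

theorem baire_hameo : HasBaireProperty (Hameo n) := by
  have := (t_POL n).1
  have := (t_POL n).2
  exact baire_of_analytic (t_ANB (Homeos n) (HamHomeo n) {φ : Homeos n | ∃ r : ℝ, 0 < r ∧ r < 1 ∧ IsHameo r φ}
    (analytic_G n) (analytic_hameo n))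

end Pool.Agent.NH65.BG
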