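import Mathlib
import Pool.Agent.R773.HN.Defs
import Pool.Agent.R773.HN.Defs3

/-!
# Analytic normal subgroups of the Hamiltonian homeomorphisms of the ball: definitions, statements of the parts

`E n = ℝ^{2n}`, `Homeos n`: the homeomorphisms of `E n`, `HamHomeo n`: the group `G` of compactly supported
Hamiltonian homeomorphisms of the open unit ball.
-/

set_option autoImplicit false

open Set Filter Topology MeasureTheory
open Pool.Agent.Y453.HB (E Q)
open Pool.Agent.R773.HN
open scoped Pointwise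

namespace Pool.Agent.NH65.BG

/-- the topology of the uniform convergence on compact sets of `f` and of its inverse -/
noncomputable instance homeosTop (n : ℕ) : TopologicalSpace (Homeos n) :=
  TopologicalSpace.induced (fun f : Homeos n => ((ContinuousMap.mk f.map f.homeo.continuous : C(E n, E n)),
    (ContinuousMap.mk f.homeo.symm f.homeo.symm.continuous : C(E n, E n)))) inferInstance

/-- the closure (in this topology) of the set of the Hamiltonian diffeomorphisms (time one maps) supported in the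
closed ball of radius `r` -/
def Gam (n : ℕ) (r : ℝ) : Set (Homeos n) :=
  closure {u | IsHamDiffeo u ∧ ∀ x, r ^ 2 < Q x → u.map x = x}

/-- the subgroup `N` of `G` as a set of homeomorphisms -/
def img {n : ℕ} (N : Subgroup (HamHomeo n)) : Set (Homeos n) := {f | ∃ g ∈ N, g.1 = f}

/-- BG-BP: analytic sets have the property of Baire -/
def S_BP : Prop := ∀ (X : Type) [TopologicalSpace X] [PolishSpace X] (s : Set X), AnalyticSet s → BaireMeasurableSet s

/-- BG-PET: Pettis' lemma -/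
def S_PET : Prop := ∀ (Γ : Type) [Group Γ] [TopologicalSpace Γ] [IsTopologicalGroup Γ] [BaireSpace Γ] (A : Set Γ),
  BaireMeasurableSet A → ¬ IsMeagre A → A * A⁻¹ ∈ 𝓝 (1 : Γ)

/-- BG-POL: the homeomorphisms of `ℝ^{2n}` are a Polish group -/
def S_POL : Prop := ∀ n : ℕ, PolishSpace (Homeos n) ∧ IsTopologicalGroup (Homeos n)

/-- BG-ABS: an analytic subgroup `M` which is not meagre in a closed subgroup `L` is open in `L` -/
def S_ABS : Prop := ∀ (Γ : Type) [Group Γ] [TopologicalSpace Γ] [IsTopologicalGroup Γ] [PolishSpace Γ]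
  (L M : Subgroup Γ), IsClosed (L : Set Γ) → AnalyticSet (M : Set Γ) → ¬ IsMeagre {x : L | x.1 ∈ M} →
  ∃ V ∈ 𝓝 (1 : Γ), ∀ f ∈ V, f ∈ L → f ∈ M

/-- BG-CNT: a subgroup `M` whose cosets by countably many elements cover the closed subgroup `L` is not meagre in
`L` -/
def S_CNT : Prop := ∀ (Γ : Type) [Group Γ] [TopologicalSpace Γ] [IsTopologicalGroup Γ] [PolishSpace Γ]
  (L M : Subgroup Γ), IsClosed (L : Set Γ) → ∀ c : ℕ → Γ, (∀ f ∈ L, ∃ k, (c k)⁻¹ * f ∈ M) →
  ¬ IsMeagre {x : L | x.1 ∈ M}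

/-- BG-TOP: convergence of sequences -/
def S_TOP : Prop := ∀ (n : ℕ) (u : ℕ → Homeos n) (g : Homeos n), Tendsto u atTop (𝓝 g) ↔
  ∀ K : Set (E n), IsCompact K → TendstoUniformlyOn (fun k x => (u k).map x) g.map atTop K ∧
    TendstoUniformlyOn (fun k x => ((u k)⁻¹ : Homeos n).map x) (g⁻¹ : Homeos n).map atTop K

/-- BG-NBH: neighbourhoods of the identity -/
def S_NBH : Prop := ∀ (n : ℕ), ∀ V ∈ 𝓝 (1 : Homeos n), ∃ ε : ℝ, 0 < ε ∧
  ∀ v : Homeos n, (∀ x, ‖v.map x - x‖ < ε) → v ∈ V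

/-- BG-GA: the sets `Gam n r` are subgroups -/
def S_GA : Prop := ∀ (n : ℕ) (r : ℝ), ∃ L : Subgroup (Homeos n), (L : Set (Homeos n)) = Gam n r

/-- BG-GB: `Gam n r` is contained in `G` -/
def S_GB : Prop := ∀ (n : ℕ) (r : ℝ), 0 < r → r < 1 → Gam n r ⊆ (HamHomeo n : Set (Homeos n))

/-- BG-GC: every element of `G` is in some `Gam n r` -/
def S_GC : Prop := ∀ n : ℕ, ∀ f ∈ HamHomeo n, ∃ j : ℕ, f ∈ Gam n (1 - 1 / ((j : ℝ) + 2))

/-- BG-SPL: a Hamiltonian diffeomorphism is a product of ones which are close to the identity, with supports in a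
fixed ball of radius less than one -/
def S_SPL : Prop := ∀ (n : ℕ) (u : Homeos n), IsHamDiffeo u → ∃ r : ℝ, 0 < r ∧ r < 1 ∧ ∀ ε : ℝ, 0 < ε →
  ∃ l : List (Homeos n), l.prod = u ∧ ∀ v ∈ l, IsHamDiffeo v ∧ (∀ x, r ^ 2 < Q x → v.map x = x) ∧
    ∀ x, ‖v.map x - x‖ < ε

/-- BG-ANA: the normal closure in a subgroup `G` of an analytic set is analytic -/
def S_ANA : Prop := ∀ (Γ : Type) [Group Γ] [TopologicalSpace Γ] [IsTopologicalGroup Γ] [PolishSpace Γ]
  (G : Subgroup Γ) (A : Set Γ), AnalyticSet (G : Set Γ) → AnalyticSet A →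
  AnalyticSet {f : Γ | ∃ g ∈ Subgroup.normalClosure {g : G | g.1 ∈ A}, g.1 = f}

end Pool.Agent.NH65.BG
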