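import Pool.Agent.NH65.BG.Stm

/-!
# Project BG: homomorphisms to free groups, statements
-/

set_option autoImplicit false

open Set Filter Topology MeasureTheory

namespace Pool.Agent.NH65.BG

/-- `ℓ` is a length function on the group `A` such that the powers of an element are long -/
structure IsDudleyLength {A : Type} [Group A] (ℓ : A → ℕ) : Prop where
  mul : ∀ a b, ℓ (a * b) ≤ ℓ a + ℓ b
  inv : ∀ a, ℓ a⁻¹ = ℓ a
  zero : ∀ a, ℓ a = 0 ↔ a = 1
  pow : ∀ a, a ≠ 1 → ∀ m : ℕ, 1 ≤ m → m ≤ ℓ (a ^ m) ∧ ℓ a ≤ ℓ (a ^ m)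

/-- BG-DUD (Dudley 1961): homomorphisms from a Polish group to such a group are continuous -/
def S_DUD : Prop := ∀ (Γ : Type) [Group Γ] [TopologicalSpace Γ] [IsTopologicalGroup Γ] [PolishSpace Γ] (A : Type)
  [Group A] (ℓ : A → ℕ), IsDudleyLength ℓ → ∀ c : Γ →* A, ∃ V ∈ 𝓝 (1 : Γ), ∀ f ∈ V, c f = 1

/-- BG-FREE: homomorphisms to free groups -/
def S_FREE : Prop := ∀ (G : Type) [Group G], (∀ c : G →* Multiplicative ℤ, c = 1) →
  ∀ (A : Type) [Group A] [IsFreeGroup A] (c : G →* A), c = 1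

end Pool.Agent.NH65.BG
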