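import Pool.Agent.NH65.BG.Stm

/-!
# Project BG: the group of hameomorphisms (Oh and Müller), definitions and statements of the parts
-/

set_option autoImplicit false

open Set Filter Topology MeasureTheory
open Pool.Agent.Y453.HB (E Q XH)
open Pool.Agent.R773.HN

namespace Pool.Agent.NH65.BG

/-- a smooth Hamiltonian `H` supported in the closed ball of radius `r` for all times, and its flow `ψ` -/
structure HI (n : ℕ) (r : ℝ) where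
  /-- the Hamiltonian -/
  H : ℝ → E n → ℝ
  /-- the flow -/
  ψ : ℝ → E n → E n
  smooth : ContDiff ℝ ((⊤ : ℕ∞) : WithTop ℕ∞) (Function.uncurry H)
  supp : ∀ (t : ℝ) (x : E n), r ^ 2 < Q x → H t x = 0
  zero : ∀ x, ψ 0 x = x
  ode : ∀ (t : ℝ) (x : E n), HasDerivAt (fun s : ℝ => ψ s x) (XH (H t) (ψ t x)) t

/-- the Hofer norm `∫ (max F_t - min F_t) dt`, `0 ≤ t ≤ 1` -/
noncomputable def hofer {n : ℕ} (F : ℝ → E n → ℝ) : ℝ := ∫ t in (0 : ℝ)..1, ((⨆ x, F t x) - (⨅ x, F t x))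

/-- `φ` is a hameomorphism (Hamiltonian homeomorphism in the sense of Oh and Müller), with the supports in the closed
ball of radius `r`: there are smooth Hamiltonians, Cauchy for the Hofer norm, whose isotopies converge uniformly in
`(t, x)` to an isotopy of homeomorphisms with the end `φ` -/
def IsHameo {n : ℕ} (r : ℝ) (φ : Homeos n) : Prop := ∃ a : ℕ → HI n r,
  (∀ ε : ℝ, 0 < ε → ∃ N : ℕ, ∀ i j : ℕ, N ≤ i → N ≤ j → hofer (fun t x => (a i).H t x - (a j).H t x) < ε) ∧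
  ∃ Φ : ℝ → Homeos n, TendstoUniformlyOn (fun (i : ℕ) (p : ℝ × E n) => (a i).ψ p.1 p.2)
    (fun p => (Φ p.1).map p.2) atTop (Icc (0 : ℝ) 1 ×ˢ univ) ∧ Φ 1 = φ

/-- the group of the hameomorphisms of the ball (the subgroup of `G` generated by them; they form a group) -/
noncomputable def Hameo (n : ℕ) : Subgroup (HamHomeo n) :=
  Subgroup.closure {g | ∃ r : ℝ, 0 < r ∧ r < 1 ∧ IsHameo r g.1}

/-- `a` and `b` are close, in the Hofer norm and uniformly, with the inverses of the flows -/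
def Cl {n : ℕ} {r : ℝ} (a b : HI n r) (ε : ℝ) : Prop :=
  hofer (fun t x => a.H t x - b.H t x) ≤ ε ∧
  (∀ t ∈ Icc (0 : ℝ) 1, ∀ x, ‖a.ψ t x - b.ψ t x‖ ≤ ε) ∧
  ∀ t ∈ Icc (0 : ℝ) 1, ∀ x y, a.ψ t x = b.ψ t y → ‖x - y‖ ≤ ε

/-- BG-HSEP: separability -/
def S_HSEP : Prop := ∀ (n : ℕ) (r : ℝ), 0 < r → r < 1 → ∃ d : ℕ → HI n r, ∀ (a : HI n r) (ε : ℝ), 0 < ε →
  ∃ k, Cl a (d k) ε

/-- BG-HTRI: symmetry and the triangle inequality -/
def S_HTRI : Prop := ∀ (n : ℕ) (r : ℝ), 0 < r → r < 1 → ∀ (a b c : HI n r) (ε δ : ℝ),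
  (Cl a b ε → Cl b a ε) ∧ (Cl a b ε → Cl b c δ → Cl a c (ε + δ))

/-- BG-HLIM: limits of fast Cauchy sequences -/
def S_HLIM : Prop := ∀ (n : ℕ) (r : ℝ), 0 < r → r < 1 → ∀ a : ℕ → HI n r,
  (∀ i, Cl (a i) (a (i + 1)) ((1 / 2) ^ i)) → ∃ Φ : ℝ → Homeos n,
    (∀ i, ∀ t ∈ Icc (0 : ℝ) 1, ∀ x, ‖(a i).ψ t x - (Φ t).map x‖ ≤ 2 * (1 / 2) ^ i) ∧
    ∀ i, ∀ t ∈ Icc (0 : ℝ) 1, ∀ x y, (a i).ψ t x = (Φ t).map y → ‖x - y‖ ≤ 2 * (1 / 2) ^ i

/-- BG-HCAU: a sequence as in the definition of hameomorphisms is Cauchy in the sense of `Cl` -/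
def S_HCAU : Prop := ∀ (n : ℕ) (r : ℝ), 0 < r → r < 1 → ∀ a : ℕ → HI n r,
  (∀ ε : ℝ, 0 < ε → ∃ N : ℕ, ∀ i j : ℕ, N ≤ i → N ≤ j → hofer (fun t x => (a i).H t x - (a j).H t x) < ε) →
  ∀ Φ : ℝ → Homeos n, TendstoUniformlyOn (fun (i : ℕ) (p : ℝ × E n) => (a i).ψ p.1 p.2)
    (fun p => (Φ p.1).map p.2) atTop (Icc (0 : ℝ) 1 ×ˢ univ) →
  ∀ ε : ℝ, 0 < ε → ∃ N : ℕ, ∀ i j : ℕ, N ≤ i → N ≤ j → Cl (a i) (a j) ε

/-- BG-HAM: the set of the hameomorphisms is analytic -/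
def S_HAM : Prop := ∀ (n : ℕ) (r : ℝ), 0 < r → r < 1 → AnalyticSet {φ : Homeos n | IsHameo r φ}

/-- BG-HMON: hameomorphisms of larger balls -/
def S_HMON : Prop := ∀ (n : ℕ) (r s : ℝ), 0 < r → r ≤ s → ∀ φ : Homeos n, IsHameo r φ → IsHameo s φ

/-- BG-ANB: the subgroup generated by an analytic set is analytic -/
def S_ANB : Prop := ∀ (Γ : Type) [Group Γ] [TopologicalSpace Γ] [IsTopologicalGroup Γ] [PolishSpace Γ]
  (G : Subgroup Γ) (A : Set Γ), AnalyticSet (G : Set Γ) → AnalyticSet A →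
  AnalyticSet {f : Γ | ∃ g ∈ Subgroup.closure {g : G | g.1 ∈ A}, g.1 = f}

end Pool.Agent.NH65.BG
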